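import Pool.Agent.Lib_helper9.U4.Mix3
import Pool.Agent.Lib_helper48.OU.U25

/-! The Goursat theorem for general modules, without condition on the traces. -/

set_option autoImplicit false
set_option linter.unusedSectionVars false
set_option linter.unusedSimpArgs false

namespace Pool.Agent.T4

open Module Pool.Agent.OT Pool.Agent.OU Pool.Agent.U4

attribute [local instance 100] LieRing.ofAssociativeRing

variable {K : Type*} [Field K] [CharZero K]
variable {g : Type*} [LieRing g] [LieAlgebra K g]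
variable {κ : Type*} [Fintype κ]
variable {U : κ → Type*} [∀ j, AddCommGroup (U j)] [∀ j, Module K (U j)]
  [∀ j, FiniteDimensional K (U j)]
variable [∀ j, LieRingModule g (U j)] [∀ j, LieModule K g (U j)]

/-- The image of g contains the product of all sl(U j). -/
theorem slFull [∀ j, LieModule.IsIrreducible K g (U j)]
    (onU : ∀ j, finrank K (U j) ≠ 1 → OnSl K g (U j))
    (hs : ∀ j, finrank K (U j) ≠ 1 → ∃ h : g, (∀ j (v : U j), ⁅h, ⁅h, v⁆⁆ = (1/4 : K) • v) ∧
      ¬ ∃ c : K, ∀ v : U j, ⁅h, v⁆ = c • v)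
    (htw : ∀ j j', j ≠ j' → finrank K (U j) ≠ 1 → ¬ TwistIso K g (U j) (U j') ∧
      ¬ TwistIso K g (U j) (Module.Dual K (U j')))
    (z : ∀ j, Module.End K (U j)) (hz : ∀ j, LinearMap.trace K (U j) (z j) = 0) :
    ∃ y : g, ∀ j (u : U j), ⁅y, u⁆ = z j u := by
  classical
  have ntU : ∀ j, Nontrivial (U j) := fun j => LieModule.nontrivial_of_isIrreducible K g (U j)
  have plU : ∀ j, finrank K (U j) ≠ 1 → ∃ (e f : U j) (φ ψ : Module.Dual K (U j)), Pl e f φ ψ := by
    intro j hj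
    obtain ⟨h, hh, hns⟩ := hs j hj
    exact exPl h (hh j) hns
  have naU : ∀ j, finrank K (U j) ≠ 1 → ∃ a b : g, ¬ ∃ c : K, ∀ v : U j, ⁅⁅a, b⁆, v⁆ = c • v := by
    intro j hj
    obtain ⟨e, f, φ, ψ, P⟩ := plU j hj
    exact na_sl' (onU j hj) P
  have perfU : ∀ j, finrank K (U j) ≠ 1 →
      ⁅(⊤ : LieIdeal K g), (⊤ : LieIdeal K g)⁆ ⊔ scalId K g (U j) = ⊤ := fun j hj =>
    perf_of_max (max_sl (onU j hj)) (naU j hj)
  let k : {j // finrank K (U j) ≠ 1} → LieIdeal K g := fun j => scalId K g (U j.1)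
  have kr : ∀ j, k j = scalId K g (U j.1) := fun j => rfl
  have crt' := crt (k := k) (by
      rintro j I hI
      exact max_sl (onU j.1 j.2) I hI)
    (by
      rintro j
      exact perfU j.1 j.2)
    (by
      rintro j
      exact ne_top_of_na (naU j.1 j.2))
    (by
      rintro j j' hne heq
      rw [kr, kr] at heq
      have hjj : j.1 ≠ j'.1 := fun h => hne (Subtype.ext h)
      obtain ⟨h, hh, hns⟩ := hs j.1 j.2
      have hk : ∀ y : g, (∃ c : K, ∀ v : U j.1, ⁅y, v⁆ = c • v) ↔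
          (∃ c : K, ∀ v : U j'.1, ⁅y, v⁆ = c • v) := by
        intro y
        rw [← mem_scalId, ← mem_scalId, heq]
      have key := link_mod (K := K) (g := g) (V₁ := U j.1) (V₂ := U j'.1) (onU j.1 j.2) hk
        (hp_of_perf (perfU j.1 j.2)) h (hh j.1) (hh j'.1) hns (by
          rintro _ ⟨t, ht, rfl⟩ g1 g2 g3
          refine ro_of_sl g1 g2 ?_
          intro y hy
          obtain ⟨y', hy', rfl⟩ := onD_sl (onU j'.1 j'.2) (hp_of_perf (perfU j'.1 j'.2)) y hy
          exact g3 y' hy')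
      rcases key with h | h
      · exact (htw j.1 j'.1 hjj j.2).1 h
      · exact (htw j.1 j'.1 hjj j.2).2 h)
  have one0 : ∀ j, finrank K (U j) = 1 → ∀ (a b : g) (v : U j), ⁅⁅a, b⁆, v⁆ = 0 := by
    intro j hj a b v
    obtain ⟨e, he, hs⟩ := finrank_eq_one_iff'.mp hj
    have sc : ∀ y : g, ∃ c : K, ∀ v : U j, ⁅y, v⁆ = c • v := by
      intro y
      obtain ⟨c, hc⟩ := hs ⁅y, e⁆
      refine ⟨c, fun v => ?_⟩
      obtain ⟨d, rfl⟩ := hs v
      rw [lie_smul, ← hc, smul_comm]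
    obtain ⟨c, hc⟩ := sc a
    obtain ⟨d, hd⟩ := sc b
    rw [lie_lie, hc, hd, hd, hc, smul_smul, smul_smul, mul_comm, sub_self]
  have partU : ∀ j (x : Module.End K (U j)), LinearMap.trace K (U j) x = 0 →
      ∃ y : g, (∀ v : U j, ⁅y, v⁆ = x v) ∧ (∀ j', j' ≠ j → ∀ v : U j', ⁅y, v⁆ = 0) := by
    intro j x hx
    by_cases hj : finrank K (U j) = 1
    · refine ⟨0, fun v => ?_, fun i' _ v => zero_lie _⟩
      obtain ⟨e, he, hs⟩ := finrank_eq_one_iff'.mp hj
      obtain ⟨c, hc⟩ := hs (x e)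
      have hxc : x = c • 1 := by
        ext u
        obtain ⟨d, rfl⟩ := hs u
        rw [map_smul, ← hc, LinearMap.smul_apply, Module.End.one_apply, smul_comm]
      rw [hxc, map_smul, LinearMap.trace_one, hj, smul_eq_mul, Nat.cast_one, mul_one] at hx
      rw [hxc, hx, zero_smul, zero_lie, LinearMap.zero_apply]
    revert x
    let I : Submodule K (Module.End K (U j)) :=
      { carrier := {x | ∃ y : g, (∀ v : U j, ⁅y, v⁆ = x v) ∧
          (∀ j', j' ≠ j → ∀ v : U j', ⁅y, v⁆ = 0)}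
        zero_mem' := ⟨0, fun v => zero_lie _, fun i' _ v => zero_lie _⟩
        add_mem' := by
          rintro a b ⟨y, h1, h2⟩ ⟨z, h4, h5⟩
          refine ⟨y + z, fun v => by rw [add_lie, h1, h4, LinearMap.add_apply],
            fun i' h v => by rw [add_lie, h2 i' h, h5 i' h, add_zero]⟩
        smul_mem' := by
          rintro c a ⟨y, h1, h2⟩
          refine ⟨c • y, fun v => by rw [smul_lie, h1, LinearMap.smul_apply],
            fun i' h v => by rw [smul_lie, h2 i' h, smul_zero]⟩ }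
    obtain ⟨e, f, φ, ψ, P⟩ := plU j hj
    obtain ⟨z₁, z₂, hz⟩ := na_sl (onU j hj) P
    obtain ⟨y₁, g1, g2⟩ := crt' ⟨j, hj⟩ z₁
    obtain ⟨y₂, g3, g4⟩ := crt' ⟨j, hj⟩ z₂
    have m : ro ψ e - ro φ f ∈ I := by
      refine ⟨⁅y₁, y₂⁆, ?_, ?_⟩
      · intro v
        have := comm_scal (V := U j) g1 g3 v
        rw [← hz, toEnd_brk]
        exact this
      · intro j' hj' v
        by_cases hj1 : finrank K (U j') = 1
        · exact one0 j' hj1 _ _ v
        · exact comm0 (g2 ⟨j', hj1⟩ (fun h => hj' (congrArg Subtype.val h)))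
            (g4 ⟨j', hj1⟩ (fun h => hj' (congrArg Subtype.val h))) v
    have hI := sl_simple I (by
        rintro u x ⟨y, h1, h2⟩
        obtain ⟨w, c, hw⟩ := onSl_all (onU j hj) u
        refine ⟨⁅w, y⁆, ?_, ?_⟩
        · intro v
          have hw' : ∀ v : U j, ⁅w, v⁆ = u v + c • v := fun v => LinearMap.congr_fun hw v
          rw [lie_lie, h1, h1, hw', hw', map_add, map_smul, LinearMap.sub_apply, Module.End.mul_apply,
            Module.End.mul_apply]
          abel
        · intro i' hi' v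
          rw [lie_lie, h2 i' hi', h2 i' hi', lie_zero, sub_zero]) m P.H_ns
    exact hI
  have hB : ∀ j, ∃ y : g, (∀ v : U j, ⁅y, v⁆ = z j v) ∧
      (∀ j', j' ≠ j → ∀ v : U j', ⁅y, v⁆ = 0) := fun j => partU j (z j) (hz j)
  choose B hB1 hB2 using hB
  refine ⟨∑ j, B j, ?_⟩
  intro j v
  rw [LieModule.sum_lie', Finset.sum_eq_single (s := Finset.univ)
    (f := fun j' => ⁅B j', v⁆) j, hB1]
  · intro j' _ hj'
    exact hB2 j' j hj'.symm v
  · intro h; exact absurd (Finset.mem_univ j) h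

section twist

variable {V W : Type*} [AddCommGroup V] [Module K V] [FiniteDimensional K V]
  [AddCommGroup W] [Module K W] [FiniteDimensional K W]
  [LieRingModule g V] [LieModule K g V] [LieRingModule g W] [LieModule K g W]

/-- The elements on which a twisted isomorphism is equivariant form an ideal. -/
def eqId (f : V ≃ₗ[K] W) (χ : g → K) (hf : ∀ (x : g) (v : V), f ⁅x, v⁆ = ⁅x, f v⁆ + χ x • f v) :
    LieIdeal K g where
  carrier := {x | ∀ v : V, f ⁅x, v⁆ = ⁅x, f v⁆}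
  zero_mem' := by
    intro v
    rw [zero_lie, zero_lie, map_zero]
  add_mem' := by
    intro a b ha hb v
    rw [add_lie, add_lie, map_add, ha, hb]
  smul_mem' := by
    intro c a ha v
    rw [smul_lie, smul_lie, map_smul, ha]
  lie_mem := by
    intro x y hy v
    have hy' : ∀ v : V, f ⁅y, v⁆ = ⁅y, f v⁆ := hy
    rw [lie_lie, map_sub, hf, hy', hy', hf, lie_lie, lie_add, lie_smul]
    abel

/-- A twisted isomorphism which is an isomorphism on generators is an isomorphism. -/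
theorem iso_of_twist (P : Set g) (HT : ∀ I : LieIdeal K g, (∀ h ∈ P, h ∈ I) → I = ⊤)
    (f : V ≃ₗ[K] W) (χ : g → K) (hf : ∀ (x : g) (v : V), f ⁅x, v⁆ = ⁅x, f v⁆ + χ x • f v)
    (h0 : ∀ h ∈ P, χ h = 0) : Nonempty (V ≃ₗ⁅K, g⁆ W) := by
  have h1 := HT (eqId f χ hf) (fun h hh v => by rw [hf, h0 h hh, zero_smul, add_zero])
  refine ⟨{ f with map_lie' := ?_ }⟩
  intro x v
  have h2 : x ∈ eqId f χ hf := by rw [h1]; exact LieSubmodule.mem_top x
  exact h2 v

/-- The character of a twisted isomorphism at an element of square 1/4 which is not a scalar on both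
modules. -/
theorem chi_zero {h : g} (h1 : ∀ v : V, ⁅h, ⁅h, v⁆⁆ = (1/4 : K) • v)
    (h2 : ∀ v : W, ⁅h, ⁅h, v⁆⁆ = (1/4 : K) • v)
    (hno : ¬ ((∃ c : K, ∀ v : V, ⁅h, v⁆ = c • v) ∧ ∃ c : K, ∀ v : W, ⁅h, v⁆ = c • v))
    (f : V ≃ₗ[K] W) (c : K) (hf : ∀ v : V, f ⁅h, v⁆ = ⁅h, f v⁆ + c • f v) : c = 0 := by
  by_contra hne
  -- h acts on W as a scalar
  have e1 : ∀ w : W, ⁅h, w⁆ = (-(c / 2)) • w := by
    intro w
    obtain ⟨u, rfl⟩ := f.surjective w
    have k1 := hf ⁅h, u⁆
    rw [h1, map_smul, hf u, lie_add, lie_smul, h2] at k1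
    have k2 : c • ((2 : K) • ⁅h, f u⁆ + c • f u) = 0 := by
      have : c • ((2 : K) • ⁅h, f u⁆ + c • f u)
          = ((1/4 : K) • f u + c • ⁅h, f u⁆ + c • (⁅h, f u⁆ + c • f u)) - (1/4 : K) • f u := by
        module
      rw [this, ← k1, sub_self]
    have k3 := (smul_eq_zero.mp k2).resolve_left hne
    have : ⁅h, f u⁆ = (1/2 : K) • (((2 : K) • ⁅h, f u⁆ + c • f u)) + (-(c / 2)) • f u := by module
    rw [this, k3, smul_zero, zero_add]
  apply hno
  refine ⟨⟨c / 2, fun v => ?_⟩, ⟨_, e1⟩⟩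
  apply f.injective
  rw [hf, e1, map_smul]
  module

end twist

end Pool.Agent.T4
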