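import Pool.Agent.Lib_helper54.T4.W4

/-! Type IV: the first fundamental theorem for products of special linear (and symplectic) Lie
algebras, multilinear form. -/

set_option autoImplicit false
set_option linter.unusedSectionVars false
set_option linter.unusedSimpArgs false

namespace Pool.Agent.T4

open Module Finset Equiv Pool.Agent.OT Pool.Agent.MFT

variable {K : Type*} [Field K] [CharZero K]
variable {ι κ : Type*} [Fintype ι] [Fintype κ] [DecidableEq ι] [DecidableEq κ]
variable {W : ι → Type*} [∀ i, AddCommGroup (W i)] [∀ i, Module K (W i)]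
  [∀ i, FiniteDimensional K (W i)]
variable {U : κ → Type*} [∀ j, AddCommGroup (U j)] [∀ j, Module K (U j)]
  [∀ j, FiniteDimensional K (U j)]
variable {ω : ∀ i, LinearMap.BilinForm K (W i)}
variable {A : Type*} [Fintype A] [DecidableEq A]

theorem crd_prj (j : κ) (b : Bool) (c : ι ⊕ κ × Bool) (v : MSp K W U) :
    crd K W U j b (prj K W U c v) = if c = Sum.inr (j, b) then crd K W U j b v else 0 := by
  funext k
  cases b with
  | false =>
    rw [crd_false, prj_snd1]
    split_ifs
    · rfl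
    · exact map_zero _
  | true =>
    rw [crd_true, prj_snd2]
    split_ifs
    · rfl
    · rfl

theorem tot_EV_EV (j j' : κ) (b b' : Bool) (i i') (h : j = j' → b = b') :
    tot (U := U) ω (EV K W U j b i) (EV K W U j' b' i') = 0 := by
  rw [tot_EV]
  have h1 : EV K W U j b i = prj K W U (Sum.inr (j, b)) (EV K W U j b i) := by
    rw [prj_EV, if_pos rfl]
  rw [h1, crd_prj, if_neg]
  · show _ * (0 : K) = 0
    rw [mul_zero]
  · intro h2
    have h3 := Prod.ext_iff.mp (Sum.inr.inj h2)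
    have h4 : b = !b' := h3.2
    have h5 := h h3.1
    rw [h5] at h4
    cases b' <;> simp at h4

/-- The set of products of pairings and volume forms with given blocks. -/
def SD1 (K : Type*) [Field K] {ι κ : Type*} [Fintype ι] [Fintype κ] [DecidableEq ι] [DecidableEq κ]
    (W : ι → Type*) [∀ i, AddCommGroup (W i)] [∀ i, Module K (W i)]
    (U : κ → Type*) [∀ j, AddCommGroup (U j)] [∀ j, Module K (U j)]
    [∀ j, FiniteDimensional K (U j)]
    (ω : ∀ i, LinearMap.BilinForm K (W i)) (A : Type*) {w : ℕ} (cs : Fin w → κ × Bool) :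
    Set ((A → MSp K W U) → K) :=
  {G | ∃ (k : ℕ) (c : Fin k → ι ⊕ κ × Bool)
    (e : (Fin k ⊕ Fin k) ⊕ (Σ s : Fin w, Fin (finrank K (U (cs s).1))) ≃ A),
    G = fun v => (∏ t, tot ω (prj K W U (c t) (v (e (Sum.inl (Sum.inl t))))) (v (e (Sum.inl (Sum.inr t)))))
      * ∏ s, vol K W U (cs s).1 (!(cs s).2) (fun i => v (e (Sum.inr ⟨s, i⟩)))}

theorem Psi_mono (hω : ∀ i, (ω i).Nondegenerate) (halt : ∀ i v w, ω i v w = - ω i w v)
    {w : ℕ} (cs : Fin w → κ × Bool)
    (hcs : ∀ s s', (cs s).1 = (cs s').1 → (cs s).2 = (cs s').2)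
    {G : (A ⊕ (Σ s : Fin w, Fin (finrank K (U (cs s).1))) → MSp K W U) → K}
    (hG : PairM (tot ω) (prj K W U) Finset.univ G) :
    Psi cs G ∈ Submodule.span K (SD1 K W U ω A cs) := by
  have H := tot_dec (U := U) hω halt
  obtain ⟨k, l, r, c, hinj, hmem, rfl⟩ := hG.explicit
  obtain ⟨ε, hε⟩ : ∃ ε : Fin k ⊕ Fin k ≃ A ⊕ (Σ s : Fin w, Fin (finrank K (U (cs s).1))),
      ∀ x, ε x = Sum.elim l r x :=
    ⟨Equiv.ofBijective (Sum.elim l r) ⟨hinj, fun a => (hmem a).mp (Finset.mem_univ a)⟩, fun _ => rfl⟩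
  have hl : ∀ t, l t = ε (Sum.inl t) := fun t => by rw [hε, Sum.elim_inl]
  have hr : ∀ t, r t = ε (Sum.inr t) := fun t => by rw [hε, Sum.elim_inr]
  -- evaluation
  have hev : ∀ v : A → MSp K W U, Psi cs (fun v => ∏ t, tot ω (prj K W U (c t) (v (l t))) (v (r t))) v
      = ∑ σ : ∀ s, Perm (Fin (finrank K (U (cs s).1))), (∏ s, ((Perm.sign (σ s) : ℤ) : K)) *
      ∏ t, tot ω (prj K W U (c t) ((Sum.elim v (fun q => EV K W U (cs q.1).1 (cs q.1).2 (σ q.1 q.2)))
        (ε (Sum.inl t))))
        ((Sum.elim v (fun q => EV K W U (cs q.1).1 (cs q.1).2 (σ q.1 q.2))) (ε (Sum.inr t))) := by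
    intro v
    simp only [← hl, ← hr]
    rfl
  by_cases hQ : ∀ t q q', ε (Sum.inl t) = Sum.inr q → ε (Sum.inr t) = Sum.inr q' → False
  · obtain ⟨k₀, τ, e, τ', bb, h1, h2, h3⟩ := comb ε hQ
    obtain ⟨ρ, hρ⟩ : ∃ ρ : (Σ s : Fin w, Fin (finrank K (U (cs s).1))) → K,
      ∀ q, ρ q = if bb q = false then (if prt (c (τ' q)) = Sum.inr (cs q.1) then 1 else 0)
        else (if c (τ' q) = Sum.inr (cs q.1) then -1 else 0) := ⟨_, fun _ => rfl⟩
    have key : ∀ v : A → MSp K W U,
        Psi cs (fun v => ∏ t, tot ω (prj K W U (c t) (v (l t))) (v (r t))) v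
        = ((∏ q, ρ q) * ∏ s, (- sg K (cs s).2) ^ (finrank K (U (cs s).1))) *
          ((∏ t, tot ω (prj K W U (c (τ t)) (v (e (Sum.inl (Sum.inl t)))))
            (v (e (Sum.inl (Sum.inr t)))))
          * ∏ s, vol K W U (cs s).1 (!(cs s).2) (fun i => v (e (Sum.inr ⟨s, i⟩)))) := by
      intro v
      rw [hev]
      have h4 : ∀ σ : ∀ s, Perm (Fin (finrank K (U (cs s).1))),
          ∏ t, tot ω (prj K W U (c t) ((Sum.elim v (fun q => EV K W U (cs q.1).1 (cs q.1).2 (σ q.1 q.2)))
            (ε (Sum.inl t))))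
            ((Sum.elim v (fun q => EV K W U (cs q.1).1 (cs q.1).2 (σ q.1 q.2))) (ε (Sum.inr t)))
          = (∏ t, tot ω (prj K W U (c (τ t)) (v (e (Sum.inl (Sum.inl t)))))
              (v (e (Sum.inl (Sum.inr t))))) *
            ((∏ q, ρ q) * ∏ s, ∏ i, tot ω (v (e (Sum.inr ⟨s, i⟩)))
              (EV K W U (cs s).1 (cs s).2 (σ s i))) := by
        intro σ
        rw [← (Equiv.ofBijective _ h3).prod_comp, Fintype.prod_sum_type]
        congr 1
        · refine Finset.prod_congr rfl fun t _ => ?_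
          show tot ω (prj K W U (c (τ t)) ((Sum.elim v _) (ε (Sum.inl (τ t)))))
            ((Sum.elim v _) (ε (Sum.inr (τ t)))) = _
          rw [(h1 t).1, (h1 t).2, Sum.elim_inl, Sum.elim_inl]
        · rw [← Fintype.prod_sigma (fun q : (Σ s : Fin w, Fin (finrank K (U (cs s).1))) =>
              tot ω (v (e (Sum.inr q))) (EV K W U (cs q.1).1 (cs q.1).2 (σ q.1 q.2))),
            ← Finset.prod_mul_distrib]
          refine Finset.prod_congr rfl fun q _ => ?_
          show tot ω (prj K W U (c (τ' q)) ((Sum.elim v _) (ε (Sum.inl (τ' q)))))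
            ((Sum.elim v _) (ε (Sum.inr (τ' q)))) = _
          rw [hρ]
          by_cases hb : bb q = false
          · obtain ⟨h5, h6⟩ := (h2 q).1 hb
            rw [if_pos hb, h5, h6, Sum.elim_inl, Sum.elim_inr, H.adj, prj_EV]
            by_cases h7 : prt (c (τ' q)) = Sum.inr (cs q.1)
            · rw [if_pos h7, if_pos h7, one_mul]
            · rw [if_neg h7, if_neg h7, map_zero, zero_mul]
          · have hb' : bb q = true := by simpa using hb
            obtain ⟨h5, h6⟩ := (h2 q).2 hb'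
            rw [if_neg hb, h5, h6, Sum.elim_inl, Sum.elim_inr, prj_EV]
            by_cases h7 : c (τ' q) = Sum.inr (cs q.1)
            · rw [if_pos h7, if_pos h7, H.alt, neg_one_mul]
            · rw [if_neg h7, if_neg h7, map_zero, LinearMap.zero_apply, zero_mul]
      simp only [h4]
      have h5 : ∀ σ : ∀ s, Perm (Fin (finrank K (U (cs s).1))),
          (∏ s, ((Perm.sign (σ s) : ℤ) : K)) *
            ((∏ t, tot ω (prj K W U (c (τ t)) (v (e (Sum.inl (Sum.inl t)))))
              (v (e (Sum.inl (Sum.inr t))))) *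
            ((∏ q, ρ q) * ∏ s, ∏ i, tot ω (v (e (Sum.inr ⟨s, i⟩)))
              (EV K W U (cs s).1 (cs s).2 (σ s i))))
          = ((∏ q, ρ q) * (∏ t, tot ω (prj K W U (c (τ t)) (v (e (Sum.inl (Sum.inl t)))))
              (v (e (Sum.inl (Sum.inr t)))))) *
            ∏ s, (((Perm.sign (σ s) : ℤ) : K) * ∏ i, tot ω (v (e (Sum.inr ⟨s, i⟩)))
              (EV K W U (cs s).1 (cs s).2 (σ s i))) := by
        intro σ
        rw [Finset.prod_mul_distrib]
        ring
      simp only [h5]
      rw [← Finset.mul_sum]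
      have h6 := Finset.prod_univ_sum (fun s : Fin w => (Finset.univ :
          Finset (Perm (Fin (finrank K (U (cs s).1))))))
        (fun s (σ : Perm (Fin (finrank K (U (cs s).1)))) => ((Perm.sign σ : ℤ) : K) *
          ∏ i, tot ω (v (e (Sum.inr ⟨s, i⟩))) (EV K W U (cs s).1 (cs s).2 (σ i)))
      rw [Fintype.piFinset_univ] at h6
      rw [← h6]
      have h7 : ∀ s : Fin w, ∑ σ : Perm (Fin (finrank K (U (cs s).1))), ((Perm.sign σ : ℤ) : K) *
          ∏ i, tot ω (v (e (Sum.inr ⟨s, i⟩))) (EV K W U (cs s).1 (cs s).2 (σ i))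
          = (- sg K (cs s).2) ^ (finrank K (U (cs s).1))
            * vol K W U (cs s).1 (!(cs s).2) (fun i => v (e (Sum.inr ⟨s, i⟩))) :=
        fun s => alt_EV (cs s).1 (cs s).2 _
      simp only [h7]
      rw [Finset.prod_mul_distrib]
      ring
    have hfin : Psi cs (fun v => ∏ t, tot ω (prj K W U (c t) (v (l t))) (v (r t)))
        = ((∏ q, ρ q) * ∏ s, (- sg K (cs s).2) ^ (finrank K (U (cs s).1))) •
          (fun v : A → MSp K W U =>
            (∏ t, tot ω (prj K W U (c (τ t)) (v (e (Sum.inl (Sum.inl t)))))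
            (v (e (Sum.inl (Sum.inr t)))))
          * ∏ s, vol K W U (cs s).1 (!(cs s).2) (fun i => v (e (Sum.inr ⟨s, i⟩)))) := by
      funext v
      rw [key]
      rfl
    rw [hfin]
    exact Submodule.smul_mem _ _ (Submodule.subset_span ⟨k₀, fun t => c (τ t), e, rfl⟩)
  · push Not at hQ
    obtain ⟨t, q, q', h1, h2, -⟩ := hQ
    have : Psi cs (fun v : A ⊕ (Σ s : Fin w, Fin (finrank K (U (cs s).1))) → MSp K W U =>
        ∏ t, tot ω (prj K W U (c t) (v (l t))) (v (r t))) = 0 := by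
      funext v
      rw [hev]
      refine Finset.sum_eq_zero fun σ _ => ?_
      rw [Finset.prod_eq_zero (Finset.mem_univ t), mul_zero]
      rw [h1, h2, Sum.elim_inr, Sum.elim_inr, prj_EV]
      split_ifs
      · exact tot_EV_EV _ _ _ _ _ _ (hcs q.1 q'.1)
      · rw [map_zero, LinearMap.zero_apply]
    rw [this]
    exact Submodule.zero_mem _

/-- Weyl's trick. -/
theorem weyl (hω : ∀ i, (ω i).Nondegenerate) (halt : ∀ i v w, ω i v w = - ω i w v)
    {w : ℕ} (cs : Fin w → κ × Bool)
    (hcs : ∀ s s', (cs s).1 = (cs s').1 → (cs s).2 = (cs s').2)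
    (h : MultilinearMap K (fun _ : A => MSp K W U) K)
    (hch : ∀ (x : ∀ i, Module.End K (W i)) (z : ∀ j, Module.End K (U j)),
      (∀ i v w, ω i (x i v) w = - ω i v (x i w)) → ∀ v : A → MSp K W U,
      ∑ a, h (Function.update v a (Yx x z (v a)))
        = -(∑ s, sg K (cs s).2 * LinearMap.trace K (U (cs s).1) (z (cs s).1)) * h v) :
    (fun v => h v) ∈ Submodule.span K (SD1 K W U ω A cs) := by
  have H := tot_dec (U := U) hω halt
  have h1 := mfft H _ Finset.univ rfl _ (Fb_pml cs h) (Fb_inv (ω := ω) cs h hch)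
  obtain ⟨N, hN, h2⟩ := Psi_Fb cs h
  have h3 : (fun v => h v) = N⁻¹ • Psi cs (Fb cs h) := by
    rw [h2, smul_smul, inv_mul_cancel₀ hN, one_smul]
  rw [h3]
  refine Submodule.smul_mem _ _ ?_
  have hle : SM (tot (U := U) ω) (prj K W U)
      (Finset.univ : Finset (A ⊕ (Σ s : Fin w, Fin (finrank K (U (cs s).1)))))
      ≤ (Submodule.span K (SD1 K W U ω A cs)).comap (Psi cs) := by
    unfold SM
    rw [Submodule.span_le]
    intro G hG
    exact Psi_mono hω halt cs hcs hG
  exact hle h1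

variable {g : Type*} [LieRing g] [LieAlgebra K g]
  [∀ i, LieRingModule g (W i)] [∀ i, LieModule K g (W i)]
  [∀ j, LieRingModule g (U j)] [∀ j, LieModule K g (U j)]

/-- Products of pairings and volume forms, of total character zero, for each j only one sign. -/
def SD (K : Type*) [Field K] {ι κ : Type*} [Fintype ι] [Fintype κ] [DecidableEq ι] [DecidableEq κ]
    (W : ι → Type*) [∀ i, AddCommGroup (W i)] [∀ i, Module K (W i)]
    (U : κ → Type*) [∀ j, AddCommGroup (U j)] [∀ j, Module K (U j)]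
    [∀ j, FiniteDimensional K (U j)]
    (g : Type*) [LieRing g] [LieAlgebra K g] [∀ j, LieRingModule g (U j)] [∀ j, LieModule K g (U j)]
    (ω : ∀ i, LinearMap.BilinForm K (W i)) (A : Type*) : Set ((A → MSp K W U) → K) :=
  {G | ∃ (k w : ℕ) (c : Fin k → ι ⊕ κ × Bool) (cs : Fin w → κ × Bool)
    (e : (Fin k ⊕ Fin k) ⊕ (Σ s : Fin w, Fin (finrank K (U (cs s).1))) ≃ A),
    (∀ s s', (cs s).1 = (cs s').1 → (cs s).2 = (cs s').2) ∧
    (∀ y : g, ∑ s, sg K (cs s).2 * LinearMap.trace K (U (cs s).1)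
      (LieModule.toEnd K g (U (cs s).1) y) = 0) ∧
    G = fun v => (∏ t, tot ω (prj K W U (c t) (v (e (Sum.inl (Sum.inl t))))) (v (e (Sum.inl (Sum.inr t)))))
      * ∏ s, vol K W U (cs s).1 (cs s).2 (fun i => v (e (Sum.inr ⟨s, i⟩)))}

/-- First fundamental theorem for products of symplectic and special linear Lie algebras. -/
theorem multi (hU : ∀ j, 0 < finrank K (U j)) (hω : ∀ i, (ω i).Nondegenerate)
    (halt : ∀ i v w, ω i v w = - ω i w v)
    (hfull : ∀ (x : ∀ i, Module.End K (W i)) (z : ∀ j, Module.End K (U j)),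
      (∀ i v w, ω i (x i v) w = - ω i v (x i w)) → (∀ j, LinearMap.trace K (U j) (z j) = 0) →
      ∃ y : g, (∀ i (v : W i), ⁅y, v⁆ = x i v) ∧ ∀ j (u : U j), ⁅y, u⁆ = z j u)
    (hinv : ∀ i (x : g) (v w : W i), ω i ⁅x, v⁆ w = - ω i v ⁅x, w⁆)
    (f : MultilinearMap K (fun _ : A => MSp K W U) K)
    (hf : ∀ (y : g) (v : A → MSp K W U), ∑ a, f (Function.update v a (actM K y (v a))) = 0) :
    (fun v => f v) ∈ Submodule.span K (SD K W U g ω A) := by
  have hf0 : Inv0 ω f := by
    intro x z hx hz v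
    obtain ⟨y, hy1, hy2⟩ := hfull x z hx hz
    rw [← hf y v]
    refine Finset.sum_congr rfl fun a _ => ?_
    congr 2
    refine msp_ext ?_ ?_ ?_
    · intro i; exact (hy1 i _).symm
    · intro j; exact (hy2 j _).symm
    · intro j
      refine LinearMap.ext fun u => ?_
      show -((v a).2 j).2 (z j u) = _
      rw [act_dual, hy2]
  have hsum : (fun v => f v) = ∑ γ : A → ι ⊕ κ × Bool, (fun v => cmp f γ v) := by
    funext v
    rw [Finset.sum_apply]
    exact cmp_sum hω halt f v
  rw [hsum]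
  refine Submodule.sum_mem _ fun γ _ => ?_
  by_cases h0 : cmp f γ = 0
  · have : (fun v => cmp f γ v) = 0 := by
      funext v
      rw [h0]; rfl
    rw [this]
    exact Submodule.zero_mem _
  obtain ⟨e, he⟩ := exists_wt hU hf0 γ h0
  obtain ⟨w, cs, hcs, hcs2⟩ := blocks K e
  have h1 := weyl hω halt cs hcs (cmp f γ) (by
    intro x z hx v
    rw [cmp_char hU hf0 γ he x z hx v, hcs2 (fun j => LinearMap.trace K (U j) (z j)), neg_neg])
  -- the character vanishes on g
  have h2 : ∀ y : g, ∑ j, (e j : K) * LinearMap.trace K (U j) (LieModule.toEnd K g (U j) y) = 0 := by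
    intro y
    obtain ⟨v, hv⟩ : ∃ v, cmp f γ v ≠ 0 := by
      by_contra hcon
      push Not at hcon
      exact h0 (MultilinearMap.ext fun v => by rw [hcon v]; rfl)
    have hY : ∀ w : MSp K W U, Yx (fun i => LieModule.toEnd K g (W i) y)
        (fun j => LieModule.toEnd K g (U j) y) w = actM K y w := by
      intro w
      refine msp_ext ?_ ?_ ?_
      · intro i; rfl
      · intro j; rfl
      · intro j
        refine LinearMap.ext fun u => ?_
        rw [act_dual]; rfl
    have h3 := cmp_char hU hf0 γ he (fun i => LieModule.toEnd K g (W i) y)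
      (fun j => LieModule.toEnd K g (U j) y) (fun i v w => hinv i y v w) v
    simp only [cmp_act] at h3
    simp only [hY] at h3
    rw [hf y] at h3
    exact (mul_eq_zero.mp h3.symm).resolve_right hv
  refine Submodule.span_mono ?_ h1
  rintro G ⟨k, c, ee, rfl⟩
  refine ⟨k, w, c, fun s => ((cs s).1, !(cs s).2), ee, ?_, ?_, rfl⟩
  · intro s s' h
    show (!(cs s).2) = !(cs s').2
    rw [hcs s s' h]
  · intro y
    show ∑ s, sg K (!(cs s).2) * LinearMap.trace K (U (cs s).1)
      (LieModule.toEnd K g (U (cs s).1) y) = 0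
    simp only [sg_not, neg_mul, Finset.sum_neg_distrib]
    rw [hcs2 (fun j => LinearMap.trace K (U j) (LieModule.toEnd K g (U j) y)), h2 y, neg_zero, neg_zero]

end Pool.Agent.T4
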