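import Pool.Agent.Lib_helper54.RM.Gcd2

/-! Simplicity of the image from the multiplicities of the cocharacters: the sharp form. -/

set_option autoImplicit false
set_option linter.unusedSectionVars false

namespace Pool.Agent.T4

open Module LieModule Pool.Agent.SJ

attribute [local instance 100] LieRing.ofAssociativeRing

variable {K : Type*} [Field K] [CharZero K] [IsAlgClosed K] {g : Type*} [LieRing g]
  [LieAlgebra K g]

/-- If the elements h of square 1/4 in P generate, and there is no factorization m n of the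
dimension such that the multiplicity of 1/2 of every nonscalar h in P is divisible by m or n, one
by m and one by n, then the image of g is simple. -/
theorem psimple_n1 (U : Type*) [AddCommGroup U] [Module K U] [FiniteDimensional K U]
    [LieRingModule g U] [LieModule K g U] [LieModule.IsIrreducible K g U] (P : Set g)
    (hP : ∀ h ∈ P, ∀ v : U, ⁅h, ⁅h, v⁆⁆ = (1 / 4 : K) • v)
    (HT : ∀ I : LieIdeal K g, (∀ h ∈ P, h ∈ I) → I = ⊤)
    (hn : ∀ m n : ℕ, 2 ≤ m → 2 ≤ n → m * n = finrank K U →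
      (∀ h ∈ P, (¬ ∃ c : K, ∀ v : U, ⁅h, v⁆ = c • v) →
        m ∣ finrank K (Module.End.eigenspace (toEnd K g U h) (1/2)) ∨
        n ∣ finrank K (Module.End.eigenspace (toEnd K g U h) (1/2))) →
      (∃ h ∈ P, (¬ ∃ c : K, ∀ v : U, ⁅h, v⁆ = c • v) ∧
        m ∣ finrank K (Module.End.eigenspace (toEnd K g U h) (1/2))) →
      (∃ h ∈ P, (¬ ∃ c : K, ∀ v : U, ⁅h, v⁆ = c • v) ∧
        n ∣ finrank K (Module.End.eigenspace (toEnd K g U h) (1/2))) → False) :
    Pool.Agent.OU.PSimple K g U := by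
  obtain ⟨htr, hfa, hirr, hz, hI⟩ := Pool.Agent.GS.facts (K := K) (g := g) U
  intro I
  rcases hI I with h | h | ⟨J, C, hJ, hC, hJC, hJC', hc⟩
  · exact Or.inl h
  · exact Or.inr h
  exfalso
  have hnt : Nontrivial U := nontrivial_of_isIrreducible K g U
  let L : LieSubalgebra K (Module.End K U) := (Pool.Agent.GS.phi (g := g) U).range
  let f : g →ₗ⁅K⁆ L := (Pool.Agent.GS.phi (g := g) U).rangeRestrict
  have hf : Function.Surjective f := (Pool.Agent.GS.phi (g := g) U).surjective_rangeRestrict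
  obtain ⟨κ, hκ⟩ : ∃ κ : g → K, ∀ z, κ z = (finrank K U : K)⁻¹ * LinearMap.trace K U (toEnd K g U z) :=
    ⟨_, fun _ => rfl⟩
  have hfv : ∀ (z : g) (v : U), ⁅f z, v⁆ = ⁅z, v⁆ - κ z • v := fun z v => by rw [hκ]; rfl
  -- generators outside a proper ideal
  have hex : ∀ Q : LieIdeal K L, Q ≠ ⊤ → ∃ h ∈ P, f h ∉ Q := by
    intro Q hQ
    by_contra hcon
    push Not at hcon
    have h1 := HT (Q.comap f) fun h hh => (LieIdeal.mem_comap).mpr (hcon h hh)
    refine hQ (eq_top_iff.mpr fun x _ => ?_)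
    obtain ⟨z, rfl⟩ := hf x
    have : z ∈ Q.comap f := by rw [h1]; exact LieSubmodule.mem_top z
    exact LieIdeal.mem_comap.mp this
  have hJt : J ≠ ⊤ := fun h => hC (by rwa [h, top_inf_eq] at hJC')
  have hCt : C ≠ ⊤ := fun h => hJ (by rwa [h, inf_top_eq] at hJC')
  obtain ⟨h₁, p₁, n₁⟩ := hex C hCt
  obtain ⟨h₂, p₂, n₂⟩ := hex J hJt
  have hor : ∀ h ∈ P, f h ∈ J ∨ f h ∈ C := by
    intro h ph
    refine Pool.Agent.GS.mem_or (U := U) (c := κ h) (d := 1/4) hJC hc hfa hz fun u => ?_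
    rw [hfv, add_sub_cancel, hfv, add_sub_cancel, hP h ph]
  have m₁ : f h₁ ∈ J := (hor h₁ p₁).resolve_right n₁
  have m₂ : f h₂ ∈ C := (hor h₂ p₂).resolve_left n₂
  have hns : ∀ h : g, (∃ c : K, ∀ v : U, ⁅h, v⁆ = c • v) → f h = 0 := by
    rintro h ⟨c, hc'⟩
    refine hfa _ fun v => ?_
    have hn : (finrank K U : K) ≠ 0 := Nat.cast_ne_zero.mpr Module.finrank_pos.ne'
    have h1 : toEnd K g U h = c • (1 : Module.End K U) := LinearMap.ext fun v => hc' v
    rw [hfv, hκ, h1, map_smul, LinearMap.trace_one, smul_eq_mul, mul_comm c,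
      inv_mul_cancel_left₀ hn, hc', sub_self]
  have s₁ : ¬ ∃ c : K, ∀ v : U, ⁅h₁, v⁆ = c • v := fun h => n₁ (by
    rw [hns h₁ h]; exact C.zero_mem)
  have s₂ : ¬ ∃ c : K, ∀ v : U, ⁅h₂, v⁆ = c • v := fun h => n₂ (by
    rw [hns h₂ h]; exact J.zero_mem)
  have hcu : ∀ x ∈ J, ∀ y ∈ C, ∀ u : U, ⁅x, ⁅y, u⁆⁆ = ⁅y, ⁅x, u⁆⁆ := fun x hx y hy u => by
    rw [leibniz_lie, hc x hx y hy, zero_lie, zero_add]
  obtain ⟨α, β, hα, hβ, hαβ, hJd, hCd⟩ :=
    Pool.Agent.RM.factors (U := U) hJC hc hfa htr hJ hC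
  have eig1 : ∀ h : g, f h ∈ J → β ∣ finrank K (Module.End.eigenspace (toEnd K g U h) (1/2)) := by
    intro h hh
    refine hCd _ fun y hy w hw => ?_
    rw [Module.End.mem_eigenspace_iff] at hw ⊢
    have e1 : ∀ v : U, toEnd K g U h v = ⁅f h, v⁆ + κ h • v := fun v => by
      rw [hfv]; simp
    rw [e1] at hw ⊢
    rw [hcu _ hh y hy w, ← lie_smul, ← lie_add, hw, lie_smul]
  have eig2 : ∀ h : g, f h ∈ C → α ∣ finrank K (Module.End.eigenspace (toEnd K g U h) (1/2)) := by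
    intro h hh
    refine hJd _ fun y hy w hw => ?_
    rw [Module.End.mem_eigenspace_iff] at hw ⊢
    have e1 : ∀ v : U, toEnd K g U h v = ⁅f h, v⁆ + κ h • v := fun v => by
      rw [hfv]; simp
    rw [e1] at hw ⊢
    rw [← hcu y hy _ hh w, ← lie_smul, ← lie_add, hw, lie_smul]
  exact hn α β hα hβ hαβ
    (fun h hh _ => (hor h hh).elim (fun m => Or.inr (eig1 h m)) (fun m => Or.inl (eig2 h m)))
    ⟨h₂, p₂, s₂, eig2 h₂ m₂⟩ ⟨h₁, p₁, s₁, eig1 h₁ m₁⟩

end Pool.Agent.T4
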