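import Pool.Agent.Lib_helper24.MF.F6

/-! Type IV: the first fundamental theorem for products of special linear Lie algebras: the volume
forms. -/

set_option autoImplicit false
set_option linter.unusedSectionVars false
set_option linter.unusedSimpArgs false

namespace Pool.Agent.T4

open Module Finset Equiv Pool.Agent.OT Pool.Agent.MFT

section alg

variable {K : Type*} [Field K]

/-- The derivative of the determinant along M ↦ M Z. -/
theorem det_deriv {d : ℕ} (M Z : Matrix (Fin d) (Fin d) K) :
    ∑ i, (M.updateRow i ((M * Z) i)).det = Z.trace * M.det := by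
  have h1 : ∀ i, (M.updateRow i ((M * Z) i)).det = ∑ k, M.adjugate k i * (M * Z) i k := by
    intro i
    rw [← Matrix.cramer_transpose_apply, Matrix.cramer_eq_adjugate_mulVec, ← Matrix.adjugate_transpose]
    rfl
  simp only [h1]
  have h2 : ∑ i, ∑ k, M.adjugate k i * (M * Z) i k = (M.adjugate * (M * Z)).trace := by
    rw [Finset.sum_comm]
    rfl
  rw [h2, ← Matrix.mul_assoc, Matrix.adjugate_mul, Matrix.smul_mul, Matrix.one_mul, Matrix.trace_smul,
    smul_eq_mul, mul_comm]

end alg

variable {K : Type*} [Field K] [CharZero K]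
variable {ι κ : Type*} [Fintype ι] [Fintype κ]
variable {W : ι → Type*} [∀ i, AddCommGroup (W i)] [∀ i, Module K (W i)]
  [∀ i, FiniteDimensional K (W i)]
variable {U : κ → Type*} [∀ j, AddCommGroup (U j)] [∀ j, Module K (U j)]
  [∀ j, FiniteDimensional K (U j)]
variable {ω : ∀ i, LinearMap.BilinForm K (W i)}

/-- The endomorphism given by endomorphisms of the factors. -/
def Yx (x : ∀ i, Module.End K (W i)) (z : ∀ j, Module.End K (U j)) : Module.End K (MSp K W U) where
  toFun v := (fun i => x i (v.1 i), fun j => (z j (v.2 j).1, -((v.2 j).2 ∘ₗ z j)))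
  map_add' v w := by
    refine msp_ext ?_ ?_ ?_
    · intro i; exact map_add _ _ _
    · intro i; exact map_add _ _ _
    · intro i
      refine LinearMap.ext fun u => ?_
      show -((v.2 i).2 (z i u) + (w.2 i).2 (z i u)) = -(v.2 i).2 (z i u) + -(w.2 i).2 (z i u)
      ring
  map_smul' r v := by
    refine msp_ext ?_ ?_ ?_
    · intro i; exact map_smul _ _ _
    · intro i; exact map_smul _ _ _
    · intro i
      refine LinearMap.ext fun u => ?_
      show -(r * (v.2 i).2 (z i u)) = r * -(v.2 i).2 (z i u)
      ring

theorem Yx_fst (x : ∀ i, Module.End K (W i)) (z : ∀ j, Module.End K (U j)) (v : MSp K W U) (i : ι) :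
    (Yx x z v).1 i = x i (v.1 i) := rfl

theorem Yx_snd1 (x : ∀ i, Module.End K (W i)) (z : ∀ j, Module.End K (U j)) (v : MSp K W U) (j : κ) :
    ((Yx x z v).2 j).1 = z j (v.2 j).1 := rfl

theorem Yx_snd2 (x : ∀ i, Module.End K (W i)) (z : ∀ j, Module.End K (U j)) (v : MSp K W U) (j : κ) :
    ((Yx x z v).2 j).2 = -((v.2 j).2 ∘ₗ z j) := rfl

theorem Yx_sk (x : ∀ i, Module.End K (W i)) (z : ∀ j, Module.End K (U j))
    (hx : ∀ i v w, ω i (x i v) w = - ω i v (x i w)) : Sk (tot (U := U) ω) (Yx x z) := by
  intro v w
  rw [tot_apply, tot_apply, neg_add, ← Finset.sum_neg_distrib, ← Finset.sum_neg_distrib]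
  congr 1
  · exact Finset.sum_congr rfl fun i _ => hx i _ _
  · refine Finset.sum_congr rfl fun j _ => ?_
    show (w.2 j).2 (z j (v.2 j).1) - (-(v.2 j).2 (z j (w.2 j).1))
      = - (-(w.2 j).2 (z j (v.2 j).1) - (v.2 j).2 (z j (w.2 j).1))
    ring

theorem Yx_comm [DecidableEq ι] [DecidableEq κ] (x : ∀ i, Module.End K (W i))
    (z : ∀ j, Module.End K (U j)) (c : ι ⊕ κ × Bool) (v : MSp K W U) :
    Yx x z (prj K W U c v) = prj K W U c (Yx x z v) := by
  refine msp_ext ?_ ?_ ?_
  · intro i
    rw [Yx_fst, prj_fst, prj_fst]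
    split_ifs
    · rfl
    · exact map_zero _
  · intro j
    rw [Yx_snd1, prj_snd1, prj_snd1]
    split_ifs
    · rfl
    · exact map_zero _
  · intro j
    rw [Yx_snd2, prj_snd2, prj_snd2]
    split_ifs
    · rfl
    · simp

/-- Every skew endomorphism commuting with the idempotents is of this form. -/
theorem exists_xz [DecidableEq ι] [DecidableEq κ]
    (Y : Module.End K (MSp K W U)) (hY : Sk (tot (U := U) ω) Y)
    (hc : ∀ c, Y * prj K W U c = prj K W U c * Y) :
    ∃ (x : ∀ i, Module.End K (W i)) (z : ∀ j, Module.End K (U j)),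
      (∀ i v w, ω i (x i v) w = - ω i v (x i w)) ∧ Y = Yx x z := by
  have hc' : ∀ c v, Y (prj K W U c v) = prj K W U c (Y v) := fun c v => LinearMap.congr_fun (hc c) v
  let x : ∀ i, Module.End K (W i) := fun i =>
    { toFun := fun w => (Y (inW i w)).1 i
      map_add' := fun v w => by
        have : (inW i (v + w) : MSp K W U) = inW i v + inW i w := by
          unfold inW; rw [Pi.single_add]; simp
        rw [this, map_add]; rfl
      map_smul' := fun r v => by
        have : (inW i (r • v) : MSp K W U) = r • inW i v := by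
          unfold inW; rw [Pi.single_smul]; simp
        rw [this, map_smul]; rfl }
  have hx : ∀ i w, x i w = (Y (inW i w)).1 i := fun _ _ => rfl
  let z : ∀ j, Module.End K (U j) := fun j =>
    { toFun := fun u => ((Y (inU j u)).2 j).1
      map_add' := fun v w => by
        have : (inU j (v + w) : MSp K W U) = inU j v + inU j w := by
          unfold inU
          have h : ((v + w, 0) : U j × Module.Dual K (U j)) = (v, 0) + (w, 0) := by simp
          rw [h, Pi.single_add]; simp
        rw [this, map_add]; rfl
      map_smul' := fun r v => by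
        have : (inU j (r • v) : MSp K W U) = r • inU j v := by
          unfold inU
          have h : ((r • v, 0) : U j × Module.Dual K (U j)) = r • (v, 0) := by simp
          rw [h, Pi.single_smul]; simp
        rw [this, map_smul]; rfl }
  have hz : ∀ j u, z j u = ((Y (inU j u)).2 j).1 := fun _ _ => rfl
  have e1 : ∀ i (v : MSp K W U), prj K W U (Sum.inl i) v = inW i (v.1 i) := by
    intro i v
    refine msp_ext ?_ ?_ ?_
    · intro k
      rw [prj_fst]
      by_cases h : i = k
      · subst h
        rw [if_pos rfl, inW_self]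
      · rw [if_neg (fun h' => h (Sum.inl.inj h'))]
        show 0 = (Pi.single i (v.1 i) : ∀ i, W i) k
        rw [Pi.single_eq_of_ne (Ne.symm h)]
    · intro k; rfl
    · intro k; rfl
  have e2 : ∀ j (v : MSp K W U), prj K W U (Sum.inr (j, false)) v = inU j (v.2 j).1 := by
    intro j v
    refine msp_ext ?_ ?_ ?_
    · intro k; rfl
    · intro k
      rw [prj_snd1]
      by_cases h : j = k
      · subst h
        rw [if_pos rfl, inU_self]
      · rw [if_neg (fun h' => h (Prod.ext_iff.mp (Sum.inr.inj h')).1)]
        show 0 = ((Pi.single j ((v.2 j).1, 0) : ∀ j, U j × Module.Dual K (U j)) k).1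
        rw [Pi.single_eq_of_ne (Ne.symm h)]; rfl
    · intro k
      rw [prj_snd2, if_neg (by simp)]
      show 0 = ((Pi.single j ((v.2 j).1, 0) : ∀ j, U j × Module.Dual K (U j)) k).2
      by_cases h : j = k
      · subst h
        rw [Pi.single_eq_same]
      · rw [Pi.single_eq_of_ne (Ne.symm h)]; rfl
  have f1 : ∀ i (v : MSp K W U), (Y v).1 i = x i (v.1 i) := by
    intro i v
    rw [hx, ← e1, hc', e1, inW_self]
  have f2 : ∀ j (v : MSp K W U), ((Y v).2 j).1 = z j (v.2 j).1 := by
    intro j v
    rw [hz, ← e2, hc', e2, inU_self]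
  refine ⟨x, z, ?_, LinearMap.ext fun v => msp_ext ?_ ?_ ?_⟩
  · intro i v w
    have h1 : ω i (x i v) w = tot (U := U) ω (Y (inW i v)) (inW i w) := by rw [tot_inW, hx]
    rw [h1, hY]
    have h2 : Y (inW i w) = inW i (x i w) := by
      have : (inW i w : MSp K W U) = prj K W U (Sum.inl i) (inW i w) := by rw [e1, inW_self]
      rw [this, hc', e1, ← hx]
    rw [h2, tot_inW, inW_self]
  · intro i
    rw [f1]; rfl
  · intro j
    rw [f2]; rfl
  · intro j
    refine LinearMap.ext fun u => ?_
    have h1 : ((Y v).2 j).2 u = - tot (U := U) ω (Y v) (inU j u) := by rw [tot_inU, neg_neg]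
    have h2 : Y (inU j u) = inU j (z j u) := by
      have : (inU j u : MSp K W U) = prj K W U (Sum.inr (j, false)) (inU j u) := by rw [e2, inU_self]
      rw [this, hc', e2, ← hz]
    rw [h1, hY, h2, tot_inU]
    show - - - (v.2 j).2 (z j u) = - (v.2 j).2 (z j u)
    rw [neg_neg]

section vol

/-- The coordinates of the component (j, b). -/
noncomputable def crd (K : Type*) [Field K] {ι κ : Type*} (W : ι → Type*) [∀ i, AddCommGroup (W i)]
    [∀ i, Module K (W i)] (U : κ → Type*) [∀ j, AddCommGroup (U j)] [∀ j, Module K (U j)]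
    [∀ j, FiniteDimensional K (U j)] (j : κ) :
    Bool → (MSp K W U →ₗ[K] (Fin (finrank K (U j)) → K))
  | false =>
    { toFun := fun v k => (finBasis K (U j)).coord k (v.2 j).1
      map_add' := fun v w => by funext k; exact map_add _ _ _
      map_smul' := fun r v => by funext k; exact map_smul _ _ _ }
  | true =>
    { toFun := fun v k => (v.2 j).2 (finBasis K (U j) k)
      map_add' := fun v w => rfl
      map_smul' := fun r v => rfl }

theorem crd_false (j : κ) (v : MSp K W U) (k) :
    crd K W U j false v k = (finBasis K (U j)).coord k (v.2 j).1 := rfl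

theorem crd_true (j : κ) (v : MSp K W U) (k) :
    crd K W U j true v k = (v.2 j).2 (finBasis K (U j) k) := rfl

/-- The volume forms. -/
noncomputable def vol (K : Type*) [Field K] {ι κ : Type*} (W : ι → Type*) [∀ i, AddCommGroup (W i)]
    [∀ i, Module K (W i)] (U : κ → Type*) [∀ j, AddCommGroup (U j)] [∀ j, Module K (U j)]
    [∀ j, FiniteDimensional K (U j)] (j : κ) (b : Bool) :
    (MSp K W U) [⋀^Fin (finrank K (U j))]→ₗ[K] K :=
  (Matrix.detRowAlternating (R := K) (n := Fin (finrank K (U j)))).compLinearMap (crd K W U j b)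

theorem vol_apply (j : κ) (b : Bool) (v : Fin (finrank K (U j)) → MSp K W U) :
    vol K W U j b v = (Matrix.of fun i k => crd K W U j b (v i) k).det := rfl

/-- The sign. -/
def sg (K : Type*) [Field K] : Bool → K
  | false => 1
  | true => -1

theorem sg_not (b : Bool) : sg K (!b) = - sg K b := by cases b <;> simp [sg]

theorem sg_mul_self (b : Bool) : sg K b * sg K b = 1 := by cases b <;> simp [sg]

theorem sg_ne (b : Bool) : sg K b ≠ 0 := by cases b <;> simp [sg]

/-- The matrix of the action on the coordinates. -/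
theorem crd_act (x : ∀ i, Module.End K (W i)) (z : ∀ j, Module.End K (U j)) (j : κ) (b : Bool) :
    ∃ Z : Matrix (Fin (finrank K (U j))) (Fin (finrank K (U j))) K,
      Z.trace = sg K b * LinearMap.trace K (U j) (z j) ∧
      ∀ (v : MSp K W U) k, crd K W U j b (Yx x z v) k = ∑ l, crd K W U j b v l * Z l k := by
  have htr : LinearMap.trace K (U j) (z j)
      = ∑ k, (finBasis K (U j)).coord k (z j (finBasis K (U j) k)) := by
    rw [LinearMap.trace_eq_matrix_trace K (finBasis K (U j)), Matrix.trace]
    refine Finset.sum_congr rfl fun k _ => ?_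
    rw [Matrix.diag_apply, LinearMap.toMatrix_apply]
    rfl
  cases b with
  | false =>
    refine ⟨fun l k => (finBasis K (U j)).coord k (z j (finBasis K (U j) l)), ?_, ?_⟩
    · rw [htr]
      simp only [sg, one_mul]
      rfl
    · intro v k
      rw [crd_false, Yx_snd1]
      have h := (finBasis K (U j)).sum_repr (v.2 j).1
      conv_lhs => rw [← h]
      rw [map_sum, map_sum]
      refine Finset.sum_congr rfl fun l _ => ?_
      rw [map_smul, map_smul, smul_eq_mul, crd_false]
      rfl
  | true =>
    refine ⟨fun l k => -(finBasis K (U j)).coord l (z j (finBasis K (U j) k)), ?_, ?_⟩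
    · rw [htr]
      simp only [sg, neg_one_mul]
      show ∑ k, -(finBasis K (U j)).coord k (z j (finBasis K (U j) k)) = _
      rw [Finset.sum_neg_distrib]
    · intro v k
      rw [crd_true, Yx_snd2]
      show -(v.2 j).2 (z j (finBasis K (U j) k)) = _
      have h := (finBasis K (U j)).sum_repr (z j (finBasis K (U j) k))
      conv_lhs => rw [← h]
      rw [map_sum, ← Finset.sum_neg_distrib]
      refine Finset.sum_congr rfl fun l _ => ?_
      rw [map_smul, smul_eq_mul, crd_true]
      show -((finBasis K (U j)).coord l (z j (finBasis K (U j) k)) * (v.2 j).2 (finBasis K (U j) l)) = _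
      ring

theorem vol_act (x : ∀ i, Module.End K (W i)) (z : ∀ j, Module.End K (U j)) (j : κ) (b : Bool)
    (v : Fin (finrank K (U j)) → MSp K W U) :
    ∑ i, vol K W U j b (Function.update v i (Yx x z (v i)))
      = (sg K b * LinearMap.trace K (U j) (z j)) * vol K W U j b v := by
  obtain ⟨Z, hZ, h⟩ := crd_act (W := W) x z j b
  obtain ⟨M, hM⟩ : ∃ M : Matrix (Fin (finrank K (U j))) (Fin (finrank K (U j))) K,
    M = Matrix.of fun i k => crd K W U j b (v i) k := ⟨_, rfl⟩
  have hM' : ∀ i k, M i k = crd K W U j b (v i) k := fun i k => by rw [hM]; rfl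
  rw [← hZ, vol_apply, ← hM, ← det_deriv M Z]
  refine Finset.sum_congr rfl fun i _ => ?_
  rw [vol_apply]
  congr 1
  ext a k
  rw [Matrix.of_apply]
  by_cases ha : a = i
  · subst ha
    rw [Function.update_self, Matrix.updateRow_self, h, Matrix.mul_apply]
    simp only [hM']
  · rw [Function.update_of_ne ha, Matrix.updateRow_ne ha, hM']

/-- The basis vectors. -/
noncomputable def EV (K : Type*) [Field K] {ι κ : Type*} (W : ι → Type*) [∀ i, AddCommGroup (W i)]
    [∀ i, Module K (W i)] (U : κ → Type*) [∀ j, AddCommGroup (U j)] [∀ j, Module K (U j)]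
    [∀ j, FiniteDimensional K (U j)] [DecidableEq κ] (j : κ) :
    Bool → Fin (finrank K (U j)) → MSp K W U
  | false, k => inU j (finBasis K (U j) k)
  | true, k => inD j ((finBasis K (U j)).coord k)

variable [DecidableEq ι] [DecidableEq κ]

theorem prj_inU (c : ι ⊕ κ × Bool) (j : κ) (u : U j) :
    prj K W U c (inU j u) = if c = Sum.inr (j, false) then inU j u else 0 := by
  by_cases hc : c = Sum.inr (j, false)
  · rw [if_pos hc]
    subst hc
    refine msp_ext ?_ ?_ ?_
    · intro i; rfl
    · intro k
      rw [prj_snd1]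
      by_cases h : j = k
      · subst h; rw [if_pos rfl]
      · rw [if_neg (fun h' => h (Prod.ext_iff.mp (Sum.inr.inj h')).1)]
        show 0 = ((Pi.single j (u, 0) : ∀ j, U j × Module.Dual K (U j)) k).1
        rw [Pi.single_eq_of_ne (Ne.symm h)]; rfl
    · intro k
      rw [prj_snd2, if_neg (by simp)]
      show 0 = ((Pi.single j (u, 0) : ∀ j, U j × Module.Dual K (U j)) k).2
      by_cases h : j = k
      · subst h
        rw [Pi.single_eq_same]
      · rw [Pi.single_eq_of_ne (Ne.symm h)]; rfl
  · rw [if_neg hc]
    refine msp_ext ?_ ?_ ?_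
    · intro i
      rw [prj_fst]
      split_ifs <;> rfl
    · intro k
      rw [prj_snd1]
      split_ifs with h
      · have hne : k ≠ j := fun h' => hc (by rw [h, h'])
        show ((Pi.single j (u, 0) : ∀ j, U j × Module.Dual K (U j)) k).1 = 0
        rw [Pi.single_eq_of_ne hne]; rfl
      · rfl
    · intro k
      rw [prj_snd2]
      split_ifs with h
      · show ((Pi.single j (u, 0) : ∀ j, U j × Module.Dual K (U j)) k).2 = 0
        by_cases h : k = j
        · subst h
          rw [Pi.single_eq_same]
        · rw [Pi.single_eq_of_ne h]; rfl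
      · rfl

theorem prj_inD (c : ι ⊕ κ × Bool) (j : κ) (u : Module.Dual K (U j)) :
    prj K W U c (inD j u) = if c = Sum.inr (j, true) then inD j u else 0 := by
  by_cases hc : c = Sum.inr (j, true)
  · rw [if_pos hc]
    subst hc
    refine msp_ext ?_ ?_ ?_
    · intro i; rfl
    · intro k
      rw [prj_snd1, if_neg (by simp)]
      show 0 = ((Pi.single j (0, u) : ∀ j, U j × Module.Dual K (U j)) k).1
      by_cases h : j = k
      · subst h
        rw [Pi.single_eq_same]
      · rw [Pi.single_eq_of_ne (Ne.symm h)]; rfl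
    · intro k
      rw [prj_snd2]
      by_cases h : j = k
      · subst h; rw [if_pos rfl]
      · rw [if_neg (fun h' => h (Prod.ext_iff.mp (Sum.inr.inj h')).1)]
        show 0 = ((Pi.single j (0, u) : ∀ j, U j × Module.Dual K (U j)) k).2
        rw [Pi.single_eq_of_ne (Ne.symm h)]; rfl
  · rw [if_neg hc]
    refine msp_ext ?_ ?_ ?_
    · intro i
      rw [prj_fst]
      split_ifs <;> rfl
    · intro k
      rw [prj_snd1]
      split_ifs with h
      · show ((Pi.single j (0, u) : ∀ j, U j × Module.Dual K (U j)) k).1 = 0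
        by_cases h : k = j
        · subst h
          rw [Pi.single_eq_same]
        · rw [Pi.single_eq_of_ne h]; rfl
      · rfl
    · intro k
      rw [prj_snd2]
      split_ifs with h
      · have hne : k ≠ j := fun h' => hc (by rw [h, h'])
        show ((Pi.single j (0, u) : ∀ j, U j × Module.Dual K (U j)) k).2 = 0
        rw [Pi.single_eq_of_ne hne]; rfl
      · rfl

theorem prj_EV (c : ι ⊕ κ × Bool) (j : κ) (b : Bool) (k) :
    prj K W U c (EV K W U j b k) = if c = Sum.inr (j, b) then EV K W U j b k else 0 := by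
  cases b with
  | false => exact prj_inU c j _
  | true => exact prj_inD c j _

theorem tot_EV (v : MSp K W U) (j : κ) (b : Bool) (k) :
    tot ω v (EV K W U j b k) = - sg K b * crd K W U j (!b) v k := by
  cases b with
  | false =>
    show tot ω v (inU j (finBasis K (U j) k)) = _
    rw [tot_inU]
    simp only [sg, Bool.not_false, crd_true]
    ring
  | true =>
    show tot ω v (inD j ((finBasis K (U j)).coord k)) = _
    rw [tot_inD]
    simp only [sg, Bool.not_true, crd_false]
    ring

theorem crd_EV (j : κ) (b : Bool) (i k) :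
    crd K W U j b (EV K W U j b i) k = if i = k then 1 else 0 := by
  cases b with
  | false =>
    show (finBasis K (U j)).coord k ((inU (K := K) (W := W) j (finBasis K (U j) i)).2 j).1 = _
    rw [inU_self, Basis.coord_apply, Basis.repr_self, Finsupp.single_apply]
  | true =>
    show ((Pi.single j (0, (finBasis K (U j)).coord i) : ∀ j, U j × Module.Dual K (U j)) j).2
      (finBasis K (U j) k) = _
    rw [Pi.single_eq_same]
    show (finBasis K (U j)).coord i (finBasis K (U j) k) = _
    rw [Basis.coord_apply, Basis.repr_self, Finsupp.single_apply]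
    simp only [eq_comm]

theorem vol_EV (j : κ) (b : Bool) (σ : Perm (Fin (finrank K (U j)))) :
    vol K W U j b (fun i => EV K W U j b (σ i)) = ((Perm.sign σ : ℤ) : K) := by
  have h1 : vol K W U j b (fun i => EV K W U j b i) = 1 := by
    rw [vol_apply]
    have : (Matrix.of fun i k => crd K W U j b (EV K W U j b i) k) = 1 := by
      ext i k
      rw [Matrix.of_apply, crd_EV, Matrix.one_apply]
    rw [this, Matrix.det_one]
  have h2 := (vol K W U j b).map_perm (fun i => EV K W U j b i) σ
  have h3 : (fun i => EV K W U j b (σ i)) = (fun i => EV K W U j b i) ∘ σ := rfl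
  rw [h3, h2, h1, Units.smul_def, zsmul_eq_mul, mul_one]

/-- Antisymmetrised products of pairings with basis vectors. -/
theorem alt_EV (j : κ) (b : Bool) (v : Fin (finrank K (U j)) → MSp K W U) :
    ∑ σ : Perm (Fin (finrank K (U j))), ((Perm.sign σ : ℤ) : K) * ∏ i, tot ω (v i) (EV K W U j b (σ i))
      = (- sg K b) ^ (finrank K (U j)) * vol K W U j (!b) v := by
  rw [vol_apply, ← Matrix.det_transpose, Matrix.det_apply, Finset.mul_sum]
  refine Finset.sum_congr rfl fun σ _ => ?_
  simp only [tot_EV, Finset.prod_mul_distrib, Finset.prod_const, Finset.card_univ, Fintype.card_fin,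
    Matrix.transpose_apply, Matrix.of_apply]
  rw [Units.smul_def, zsmul_eq_mul]
  ring

end vol

end Pool.Agent.T4
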