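import Pool.Agent.Lib_helper54.T4.W1

/-! Type IV: the first fundamental theorem for products of special linear Lie algebras: weights. -/

set_option autoImplicit false
set_option linter.unusedSectionVars false
set_option linter.unusedSimpArgs false

namespace Pool.Agent.T4

open Module Finset Equiv Pool.Agent.OT Pool.Agent.MFT

variable {K : Type*} [Field K] [CharZero K]
variable {ι κ : Type*} [Fintype ι] [Fintype κ] [DecidableEq ι] [DecidableEq κ]
variable {W : ι → Type*} [∀ i, AddCommGroup (W i)] [∀ i, Module K (W i)]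
  [∀ i, FiniteDimensional K (W i)]
variable {U : κ → Type*} [∀ j, AddCommGroup (U j)] [∀ j, Module K (U j)]
  [∀ j, FiniteDimensional K (U j)]
variable {ω : ∀ i, LinearMap.BilinForm K (W i)}
variable {A : Type*} [Fintype A] [DecidableEq A]

/-- The integral weight of a class. -/
def wtZ {ι κ : Type*} [DecidableEq κ] : ι ⊕ κ × Bool → κ → ℤ
  | Sum.inl _, _ => 0
  | Sum.inr (j', b), j => if j' = j then (if b then -1 else 1) else 0

/-- The endomorphisms u ↦ coord k u • β k. -/
noncomputable def dg (j : κ) (k : Fin (finrank K (U j))) : Module.End K (U j) :=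
  ((finBasis K (U j)).coord k).smulRight (finBasis K (U j) k)

theorem dg_trace (j : κ) (k : Fin (finrank K (U j))) :
    LinearMap.trace K (U j) (dg j k) = 1 := by
  rw [LinearMap.trace_eq_matrix_trace K (finBasis K (U j)), Matrix.trace,
    Finset.sum_eq_single k]
  · rw [Matrix.diag_apply, LinearMap.toMatrix_apply]
    unfold dg
    rw [LinearMap.smulRight_apply, Basis.coord_apply, Basis.repr_self, Finsupp.single_eq_same,
      one_smul, Basis.repr_self, Finsupp.single_eq_same]
  · intro l _ hl
    rw [Matrix.diag_apply, LinearMap.toMatrix_apply]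
    unfold dg
    rw [LinearMap.smulRight_apply, Basis.coord_apply, Basis.repr_self,
      Finsupp.single_eq_of_ne hl.symm, zero_smul, map_zero]
    rfl
  · intro h; exact absurd (Finset.mem_univ _) h

theorem Yx_inU (z : ∀ j, Module.End K (U j)) (j : κ) (u : U j) :
    Yx (fun _ => 0) z (inU j u) = (inU j (z j u) : MSp K W U) := by
  refine msp_ext ?_ ?_ ?_
  · intro i; rfl
  · intro k
    rw [Yx_snd1]
    by_cases h : k = j
    · subst h
      rw [inU_self, inU_self]
    · show z k ((Pi.single j (u, 0) : ∀ j, U j × Module.Dual K (U j)) k).1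
        = ((Pi.single j (z j u, 0) : ∀ j, U j × Module.Dual K (U j)) k).1
      rw [Pi.single_eq_of_ne h, Pi.single_eq_of_ne h]
      exact map_zero _
  · intro k
    rw [Yx_snd2]
    have h : ∀ w : U j, ((inU (K := K) (W := W) j w).2 k).2 = 0 := by
      intro w
      show ((Pi.single j (w, 0) : ∀ j, U j × Module.Dual K (U j)) k).2 = 0
      by_cases h : k = j
      · subst h; rw [Pi.single_eq_same]
      · rw [Pi.single_eq_of_ne h]; rfl
    rw [h, h]
    simp

theorem Yx_inD (z : ∀ j, Module.End K (U j)) (j : κ) (u : Module.Dual K (U j)) :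
    Yx (fun _ => 0) z (inD j u) = (inD j (-(u ∘ₗ z j)) : MSp K W U) := by
  refine msp_ext ?_ ?_ ?_
  · intro i; rfl
  · intro k
    rw [Yx_snd1]
    have h : ∀ w : Module.Dual K (U j), ((inD (K := K) (W := W) j w).2 k).1 = 0 := by
      intro w
      show ((Pi.single j (0, w) : ∀ j, U j × Module.Dual K (U j)) k).1 = 0
      by_cases h : k = j
      · subst h; rw [Pi.single_eq_same]
      · rw [Pi.single_eq_of_ne h]; rfl
    rw [h, h]
    exact map_zero _
  · intro k
    rw [Yx_snd2]
    by_cases h : k = j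
    · subst h
      show -(((Pi.single k (0, u) : ∀ j, U j × Module.Dual K (U j)) k).2 ∘ₗ z k)
        = ((Pi.single k (0, -(u ∘ₗ z k)) : ∀ j, U j × Module.Dual K (U j)) k).2
      rw [Pi.single_eq_same, Pi.single_eq_same]
    · show -(((Pi.single j (0, u) : ∀ j, U j × Module.Dual K (U j)) k).2 ∘ₗ z k)
        = ((Pi.single j (0, -(u ∘ₗ z j)) : ∀ j, U j × Module.Dual K (U j)) k).2
      rw [Pi.single_eq_of_ne h, Pi.single_eq_of_ne h]
      simp

/-- The index set of the basis. -/
abbrev BI (K : Type*) [Field K] {ι κ : Type*} (W : ι → Type*) [∀ i, AddCommGroup (W i)]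
    [∀ i, Module K (W i)] (U : κ → Type*) [∀ j, AddCommGroup (U j)] [∀ j, Module K (U j)] : Type _ :=
  (Σ i, Fin (finrank K (W i))) ⊕ (Σ j, Fin (finrank K (U j)) ⊕ Fin (finrank K (U j)))

/-- A basis of weight vectors. -/
noncomputable def eB (K : Type*) [Field K] {ι κ : Type*} [Fintype ι] [Fintype κ]
    [DecidableEq ι] [DecidableEq κ] (W : ι → Type*) [∀ i, AddCommGroup (W i)]
    [∀ i, Module K (W i)] [∀ i, FiniteDimensional K (W i)]
    (U : κ → Type*) [∀ j, AddCommGroup (U j)] [∀ j, Module K (U j)] [∀ j, FiniteDimensional K (U j)] :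
    Basis (BI K W U) K (MSp K W U) :=
  (Pi.basis (fun i => finBasis K (W i))).prod
    (Pi.basis (fun j => (finBasis K (U j)).prod (finBasis K (U j)).dualBasis))

theorem eB_inl (i : ι) (k) : eB K W U (Sum.inl ⟨i, k⟩) = inW i (finBasis K (W i) k) := by
  unfold eB inW
  refine Prod.ext ?_ ?_
  · rw [Basis.prod_apply_inl_fst, Pi.basis_apply]
  · rw [Basis.prod_apply_inl_snd]

theorem eB_inrl (j : κ) (k) : eB K W U (Sum.inr ⟨j, Sum.inl k⟩) = inU j (finBasis K (U j) k) := by
  unfold eB inU
  refine Prod.ext ?_ ?_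
  · rw [Basis.prod_apply_inr_fst]
  · rw [Basis.prod_apply_inr_snd, Pi.basis_apply]
    show Pi.single j _ = Pi.single j _
    congr 1
    refine Prod.ext ?_ ?_
    · rw [Basis.prod_apply_inl_fst]
    · rw [Basis.prod_apply_inl_snd]

theorem eB_inrr (j : κ) (k) :
    eB K W U (Sum.inr ⟨j, Sum.inr k⟩) = inD j ((finBasis K (U j)).coord k) := by
  unfold eB inD
  refine Prod.ext ?_ ?_
  · rw [Basis.prod_apply_inr_fst]
  · rw [Basis.prod_apply_inr_snd, Pi.basis_apply]
    show Pi.single j _ = Pi.single j _
    congr 1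
    refine Prod.ext ?_ ?_
    · rw [Basis.prod_apply_inr_fst]
    · rw [Basis.prod_apply_inr_snd, Basis.coe_dualBasis]

/-- The class of a basis vector. -/
def cls : BI K W U → ι ⊕ κ × Bool
  | Sum.inl ⟨i, _⟩ => Sum.inl i
  | Sum.inr ⟨j, Sum.inl _⟩ => Sum.inr (j, false)
  | Sum.inr ⟨j, Sum.inr _⟩ => Sum.inr (j, true)

theorem prj_inW (c : ι ⊕ κ × Bool) (i : ι) (w : W i) :
    prj K W U c (inW i w) = if c = Sum.inl i then inW i w else 0 := by
  by_cases hc : c = Sum.inl i
  · rw [if_pos hc]
    subst hc
    refine msp_ext ?_ ?_ ?_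
    · intro k
      rw [prj_fst]
      by_cases h : i = k
      · subst h; rw [if_pos rfl]
      · rw [if_neg (fun h' => h (Sum.inl.inj h'))]
        show 0 = (Pi.single i w : ∀ i, W i) k
        rw [Pi.single_eq_of_ne (Ne.symm h)]
    · intro k; rfl
    · intro k; rfl
  · rw [if_neg hc]
    refine msp_ext ?_ ?_ ?_
    · intro k
      rw [prj_fst]
      split_ifs with h
      · have hne : k ≠ i := fun h' => hc (by rw [h, h'])
        show (Pi.single i w : ∀ i, W i) k = 0
        rw [Pi.single_eq_of_ne hne]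
      · rfl
    · intro k
      rw [prj_snd1]
      split_ifs <;> rfl
    · intro k
      rw [prj_snd2]
      split_ifs <;> rfl

theorem prj_eB (c : ι ⊕ κ × Bool) (b : BI K W U) :
    prj K W U c (eB K W U b) = if c = cls b then eB K W U b else 0 := by
  rcases b with ⟨i, k⟩ | ⟨j, k | k⟩
  · rw [eB_inl]; exact prj_inW c i _
  · rw [eB_inrl]; exact prj_inU c j _
  · rw [eB_inrr]; exact prj_inD c j _

/-- The weight of a basis vector. -/
noncomputable def eps (j : κ) (k : Fin (finrank K (U j))) : BI K W U → ℤ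
  | Sum.inl _ => 0
  | Sum.inr ⟨j', Sum.inl k'⟩ => if (⟨j', k'⟩ : Σ j, Fin (finrank K (U j))) = ⟨j, k⟩ then 1 else 0
  | Sum.inr ⟨j', Sum.inr k'⟩ => if (⟨j', k'⟩ : Σ j, Fin (finrank K (U j))) = ⟨j, k⟩ then -1 else 0

theorem sum_eps (j : κ) (b : BI K W U) : ∑ k, eps j k b = wtZ (cls b) j := by
  rcases b with ⟨i, l⟩ | ⟨j', l | l⟩
  · simp [eps, cls, wtZ]
  · show ∑ k, (if (⟨j', l⟩ : Σ j, Fin (finrank K (U j))) = ⟨j, k⟩ then (1 : ℤ) else 0)
      = if j' = j then (if false then -1 else 1) else 0
    by_cases h : j' = j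
    · subst h
      rw [if_pos rfl, Finset.sum_eq_single l]
      · simp
      · intro k _ hk
        rw [if_neg]
        intro h
        exact hk (by simpa using h.symm)
      · intro h; exact absurd (Finset.mem_univ _) h
    · rw [if_neg h]
      refine Finset.sum_eq_zero fun k _ => ?_
      rw [if_neg]
      intro h'
      exact h (congrArg Sigma.fst h')
  · show ∑ k, (if (⟨j', l⟩ : Σ j, Fin (finrank K (U j))) = ⟨j, k⟩ then (-1 : ℤ) else 0)
      = if j' = j then (if true then -1 else 1) else 0
    by_cases h : j' = j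
    · subst h
      rw [if_pos rfl, Finset.sum_eq_single l]
      · simp
      · intro k _ hk
        rw [if_neg]
        intro h
        exact hk (by simpa using h.symm)
      · intro h; exact absurd (Finset.mem_univ _) h
    · rw [if_neg h]
      refine Finset.sum_eq_zero fun k _ => ?_
      rw [if_neg]
      intro h'
      exact h (congrArg Sigma.fst h')

theorem Yx_eB (j : κ) (k : Fin (finrank K (U j))) (b : BI K W U) :
    Yx (fun _ => 0) (Pi.single j (dg j k)) (eB K W U b) = (eps j k b : K) • eB K W U b := by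
  have hdg : ∀ (l : Fin (finrank K (U j))), dg j k (finBasis K (U j) l)
      = if l = k then finBasis K (U j) l else 0 := by
    intro l
    unfold dg
    rw [LinearMap.smulRight_apply, Basis.coord_apply, Basis.repr_self, Finsupp.single_apply]
    split_ifs with h
    · rw [one_smul, h]
    · rw [zero_smul]
  have hco : ∀ (l : Fin (finrank K (U j))), (finBasis K (U j)).coord l ∘ₗ dg j k
      = if l = k then (finBasis K (U j)).coord l else 0 := by
    intro l
    refine (finBasis K (U j)).ext fun m => ?_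
    rw [LinearMap.comp_apply, hdg]
    by_cases h1 : m = k
    · rw [if_pos h1]
      by_cases h2 : l = k
      · rw [if_pos h2]
      · rw [if_neg h2, Basis.coord_apply, Basis.repr_self, Finsupp.single_eq_of_ne, LinearMap.zero_apply]
        intro h; exact h2 (h.trans h1)
    · rw [if_neg h1, map_zero]
      by_cases h2 : l = k
      · rw [if_pos h2, Basis.coord_apply, Basis.repr_self, Finsupp.single_eq_of_ne]
        intro h; exact h1 (h.symm.trans h2)
      · rw [if_neg h2]; rfl
  rcases b with ⟨i, l⟩ | ⟨j', l | l⟩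
  · rw [eB_inl]
    have h0 : (eps j k (Sum.inl ⟨i, l⟩ : BI K W U) : K) = 0 := by simp [eps]
    rw [h0, zero_smul]
    refine msp_ext ?_ ?_ ?_
    · intro i'; rfl
    · intro j'; exact map_zero _
    · intro j'
      refine LinearMap.ext fun u => ?_
      show -((0 : Module.Dual K (U j')) _) = 0
      simp
  · rw [eB_inrl, Yx_inU]
    by_cases h : j' = j
    · subst h
      rw [Pi.single_eq_same, hdg]
      by_cases h2 : l = k
      · subst h2
        have h0 : (eps j' l (Sum.inr ⟨j', Sum.inl l⟩ : BI K W U) : K) = 1 := by simp [eps]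
        rw [h0, one_smul, if_pos rfl]
      · have h0 : (eps j' k (Sum.inr ⟨j', Sum.inl l⟩ : BI K W U) : K) = 0 := by simp [eps, h2]
        rw [h0, zero_smul, if_neg h2]
        unfold inU
        have : ((0, 0) : U j' × Module.Dual K (U j')) = 0 := rfl
        rw [this, Pi.single_zero]; rfl
    · have h0 : (eps j k (Sum.inr ⟨j', Sum.inl l⟩ : BI K W U) : K) = 0 := by
        have : ¬ ((⟨j', l⟩ : Σ j, Fin (finrank K (U j))) = ⟨j, k⟩) := fun h' => h (congrArg Sigma.fst h')
        show ((if (⟨j', l⟩ : Σ j, Fin (finrank K (U j))) = ⟨j, k⟩ then (1 : ℤ) else 0 : ℤ) : K) = 0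
        rw [if_neg this, Int.cast_zero]
      rw [h0, zero_smul, Pi.single_eq_of_ne h]
      unfold inU
      have : (((0 : Module.End K (U j')) (finBasis K (U j') l), 0) : U j' × Module.Dual K (U j')) = 0 := rfl
      rw [this, Pi.single_zero]; rfl
  · rw [eB_inrr, Yx_inD]
    by_cases h : j' = j
    · subst h
      rw [Pi.single_eq_same, hco]
      by_cases h2 : l = k
      · subst h2
        have h0 : (eps j' l (Sum.inr ⟨j', Sum.inr l⟩ : BI K W U) : K) = -1 := by simp [eps]
        rw [h0, if_pos rfl]
        unfold inD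
        have : ((0, -(finBasis K (U j')).coord l) : U j' × Module.Dual K (U j'))
          = (-1 : K) • (0, (finBasis K (U j')).coord l) := by
          refine Prod.ext ?_ ?_
          · exact (smul_zero _).symm
          · refine LinearMap.ext fun u => ?_
            show -((finBasis K (U j')).coord l u) = (-1 : K) * (finBasis K (U j')).coord l u
            ring
        rw [this, Pi.single_smul]
        refine Prod.ext ?_ rfl
        exact (smul_zero _).symm
      · have h0 : (eps j' k (Sum.inr ⟨j', Sum.inr l⟩ : BI K W U) : K) = 0 := by simp [eps, h2]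
        rw [h0, zero_smul, if_neg h2, neg_zero]
        unfold inD
        have : ((0, 0) : U j' × Module.Dual K (U j')) = 0 := rfl
        rw [this, Pi.single_zero]; rfl
    · have h0 : (eps j k (Sum.inr ⟨j', Sum.inr l⟩ : BI K W U) : K) = 0 := by
        have : ¬ ((⟨j', l⟩ : Σ j, Fin (finrank K (U j))) = ⟨j, k⟩) := fun h' => h (congrArg Sigma.fst h')
        show ((if (⟨j', l⟩ : Σ j, Fin (finrank K (U j))) = ⟨j, k⟩ then (-1 : ℤ) else 0 : ℤ) : K) = 0
        rw [if_neg this, Int.cast_zero]
      rw [h0, zero_smul, Pi.single_eq_of_ne h, LinearMap.comp_zero, neg_zero]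
      unfold inD
      have : ((0, 0) : U j' × Module.Dual K (U j')) = 0 := rfl
      rw [this, Pi.single_zero]; rfl

/-- The component of a form. -/
noncomputable def cmp (f : MultilinearMap K (fun _ : A => MSp K W U) K) (γ : A → ι ⊕ κ × Bool) :
    MultilinearMap K (fun _ : A => MSp K W U) K :=
  f.compLinearMap (fun a => prj K W U (γ a))

theorem cmp_apply (f : MultilinearMap K (fun _ : A => MSp K W U) K) (γ : A → ι ⊕ κ × Bool)
    (v : A → MSp K W U) : cmp f γ v = f (fun a => prj K W U (γ a) (v a)) := rfl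

theorem cmp_sum (hω : ∀ i, (ω i).Nondegenerate) (halt : ∀ i v w, ω i v w = - ω i w v)
    (f : MultilinearMap K (fun _ : A => MSp K W U) K) (v : A → MSp K W U) :
    f v = ∑ γ : A → ι ⊕ κ × Bool, cmp f γ v := by
  have H := tot_dec (U := U) hω halt
  have h1 : (fun a => ∑ c, prj K W U c (v a)) = v := by
    funext a
    exact H.sum_apply (v a)
  conv_lhs => rw [← h1]
  rw [MultilinearMap.map_sum]
  rfl

theorem cmp_act (f : MultilinearMap K (fun _ : A => MSp K W U) K) (γ : A → ι ⊕ κ × Bool)
    (x : ∀ i, Module.End K (W i)) (z : ∀ j, Module.End K (U j)) (v : A → MSp K W U) (a : A) :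
    cmp f γ (Function.update v a (Yx x z (v a)))
      = f (Function.update (fun a => prj K W U (γ a) (v a)) a (Yx x z (prj K W U (γ a) (v a)))) := by
  rw [cmp_apply]
  congr 1
  funext b
  by_cases hb : b = a
  · subst hb
    rw [Function.update_self, Function.update_self, Yx_comm]
  · rw [Function.update_of_ne hb, Function.update_of_ne hb]

/-- Invariance under the endomorphisms of trace zero. -/
def Inv0 (ω : ∀ i, LinearMap.BilinForm K (W i))
    (f : MultilinearMap K (fun _ : A => MSp K W U) K) : Prop :=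
  ∀ (x : ∀ i, Module.End K (W i)) (z : ∀ j, Module.End K (U j)),
    (∀ i v w, ω i (x i v) w = - ω i v (x i w)) → (∀ j, LinearMap.trace K (U j) (z j) = 0) →
    ∀ v : A → MSp K W U, ∑ a, f (Function.update v a (Yx x z (v a))) = 0

theorem cmp_inv0 {f : MultilinearMap K (fun _ : A => MSp K W U) K} (hf : Inv0 ω f)
    (γ : A → ι ⊕ κ × Bool) : Inv0 ω (cmp f γ) := by
  intro x z hx hz v
  simp only [cmp_act]
  exact hf x z hx hz _

/-- The scalar weights. -/
def wt (t : κ → K) : ι ⊕ κ × Bool → K
  | Sum.inl _ => 0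
  | Sum.inr (j, b) => sg K b * t j

theorem wt_eq (t : κ → K) (c : ι ⊕ κ × Bool) : wt t c = ∑ j, (wtZ c j : K) * t j := by
  rcases c with i | ⟨j', b⟩
  · simp [wt, wtZ]
  · rw [Finset.sum_eq_single j']
    · cases b <;> simp [wt, wtZ, sg]
    · intro j _ hj
      simp [wtZ, Ne.symm hj]
    · intro h; exact absurd (Finset.mem_univ _) h

theorem Yx_scal (t : κ → K) (c : ι ⊕ κ × Bool) (v : MSp K W U) :
    Yx (fun _ => 0) (fun j => t j • (1 : Module.End K (U j))) (prj K W U c v)
      = wt t c • prj K W U c v := by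
  rcases c with i | ⟨j', b⟩
  · show _ = (0 : K) • _
    rw [zero_smul]
    refine msp_ext ?_ ?_ ?_
    · intro k; rfl
    · intro k
      rw [Yx_snd1, prj_snd1, if_neg (by simp)]
      exact map_zero _
    · intro k
      rw [Yx_snd2, prj_snd2, if_neg (by simp)]
      simp
  · show _ = (sg K b * t j') • _
    refine msp_ext ?_ ?_ ?_
    · intro k
      show 0 = (sg K b * t j') • ((prj K W U (Sum.inr (j', b)) v).1 k)
      rw [prj_fst, if_neg (by simp), smul_zero]
    · intro k
      rw [Yx_snd1]
      show t k • ((prj K W U (Sum.inr (j', b)) v).2 k).1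
        = (sg K b * t j') • ((prj K W U (Sum.inr (j', b)) v).2 k).1
      rw [prj_snd1]
      split_ifs with h
      · have h1 := Prod.ext_iff.mp (Sum.inr.inj h)
        have h2 : j' = k := h1.1
        have h3 : b = false := h1.2
        subst h2 h3
        simp [sg]
      · rw [smul_zero, smul_zero]
    · intro k
      rw [Yx_snd2]
      refine LinearMap.ext fun u => ?_
      show -((prj K W U (Sum.inr (j', b)) v).2 k).2 (t k • u)
        = (sg K b * t j') * ((prj K W U (Sum.inr (j', b)) v).2 k).2 u
      rw [prj_snd2]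
      split_ifs with h
      · have h1 := Prod.ext_iff.mp (Sum.inr.inj h)
        have h2 : j' = k := h1.1
        have h3 : b = true := h1.2
        subst h2 h3
        rw [map_smul, smul_eq_mul]
        simp [sg]
      · simp

theorem cmp_scal (f : MultilinearMap K (fun _ : A => MSp K W U) K) (γ : A → ι ⊕ κ × Bool)
    (t : κ → K) (v : A → MSp K W U) :
    ∑ a, cmp f γ (Function.update v a (Yx (fun _ => 0) (fun j => t j • (1 : Module.End K (U j))) (v a)))
      = (∑ j, ((∑ a, wtZ (γ a) j : ℤ) : K) * t j) * cmp f γ v := by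
  have h1 : ∀ a, cmp f γ (Function.update v a
      (Yx (fun _ => 0) (fun j => t j • (1 : Module.End K (U j))) (v a))) = wt t (γ a) * cmp f γ v := by
    intro a
    rw [cmp_act, Yx_scal, MultilinearMap.map_update_smul, smul_eq_mul, Function.update_eq_self]
    rfl
  simp only [h1, ← Finset.sum_mul, wt_eq]
  rw [Finset.sum_comm]
  congr 1
  refine Finset.sum_congr rfl fun j _ => ?_
  rw [← Finset.sum_mul]
  push_cast
  rfl

/-- The weights are divisible by the dimensions. -/
theorem exists_wt (hU : ∀ j, 0 < finrank K (U j)) {f : MultilinearMap K (fun _ : A => MSp K W U) K}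
    (hf : Inv0 ω f) (γ : A → ι ⊕ κ × Bool) (h0 : cmp f γ ≠ 0) :
    ∃ e : κ → ℤ, ∀ j, ∑ a, wtZ (γ a) j = (finrank K (U j) : ℤ) * e j := by
  obtain ⟨β, hβ⟩ : ∃ β : A → BI K W U, cmp f γ (fun a => eB K W U (β a)) ≠ 0 := by
    by_contra hcon
    push Not at hcon
    apply h0
    refine Basis.ext_multilinear (fun _ => eB K W U) fun β => ?_
    rw [hcon β]; rfl
  have hcls : ∀ a, γ a = cls (β a) := by
    intro a
    by_contra hne
    apply hβ
    rw [cmp_apply]
    refine f.map_coord_zero a ?_
    rw [prj_eB, if_neg hne]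
  have hval : cmp f γ (fun a => eB K W U (β a)) = f (fun a => eB K W U (β a)) := by
    rw [cmp_apply]
    congr 1
    funext a
    rw [prj_eB, if_pos (hcls a)]
  have key : ∀ j (k k' : Fin (finrank K (U j))), ∑ a, eps j k (β a) = ∑ a, eps j k' (β a) := by
    intro j k k'
    have h1 := hf (fun _ => 0) (Pi.single j (dg j k) - Pi.single j (dg j k'))
      (by intro i v w; simp) (by
        intro l
        rw [Pi.sub_apply, map_sub]
        by_cases hl : l = j
        · subst hl
          rw [Pi.single_eq_same, Pi.single_eq_same, dg_trace, dg_trace, sub_self]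
        · rw [Pi.single_eq_of_ne hl, Pi.single_eq_of_ne hl, sub_self])
      (fun a => eB K W U (β a))
    have h2 : ∀ b : BI K W U, Yx (fun _ => 0) (Pi.single j (dg j k) - Pi.single j (dg j k'))
        (eB K W U b) = ((eps j k b - eps j k' b : ℤ) : K) • eB K W U b := by
      intro b
      have h3 : Yx (fun _ => 0) (Pi.single j (dg j k) - Pi.single j (dg j k')) (eB K W U b)
          = Yx (fun _ => 0) (Pi.single j (dg j k)) (eB K W U b)
            - Yx (fun _ => 0) (Pi.single j (dg j k')) (eB K W U b) := by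
        refine msp_ext ?_ ?_ ?_
        · intro i; exact (sub_self _).symm
        · intro l
          rfl
        · intro l
          refine LinearMap.ext fun u => ?_
          show -((eB K W U b).2 l).2 ((Pi.single j (dg j k) : ∀ j, Module.End K (U j)) l u
              - (Pi.single j (dg j k') : ∀ j, Module.End K (U j)) l u)
            = -((eB K W U b).2 l).2 ((Pi.single j (dg j k) : ∀ j, Module.End K (U j)) l u)
              - -((eB K W U b).2 l).2 ((Pi.single j (dg j k') : ∀ j, Module.End K (U j)) l u)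
          rw [map_sub]
          ring
      rw [h3, Yx_eB, Yx_eB, Int.cast_sub]
      exact (sub_smul _ _ _).symm
    simp only [h2, MultilinearMap.map_update_smul, Function.update_eq_self] at h1
    rw [← Finset.sum_smul] at h1
    have h4 := (smul_eq_zero.mp h1).resolve_right (by rw [← hval]; exact hβ)
    have h5 : ((∑ a, (eps j k (β a) - eps j k' (β a)) : ℤ) : K) = 0 := by
      push_cast
      push_cast at h4
      exact h4
    have h6 : (∑ a, (eps j k (β a) - eps j k' (β a)) : ℤ) = 0 := by exact_mod_cast h5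
    rw [Finset.sum_sub_distrib] at h6
    linarith
  refine ⟨fun j => ∑ a, eps j ⟨0, hU j⟩ (β a), fun j => ?_⟩
  have h1 : ∑ a, wtZ (γ a) j = ∑ a, ∑ k, eps j k (β a) := by
    refine Finset.sum_congr rfl fun a _ => ?_
    rw [sum_eps, hcls a]
  rw [h1, Finset.sum_comm]
  have h2 : ∀ k ∈ (Finset.univ : Finset (Fin (finrank K (U j)))), ∑ a, eps j k (β a)
      = ∑ a, eps j ⟨0, hU j⟩ (β a) := fun k _ => key j k ⟨0, hU j⟩
  rw [Finset.sum_congr rfl h2, Finset.sum_const, Finset.card_univ, Fintype.card_fin, nsmul_eq_mul]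

/-- The character of a component. -/
theorem cmp_char (hU : ∀ j, 0 < finrank K (U j)) {f : MultilinearMap K (fun _ : A => MSp K W U) K}
    (hf : Inv0 ω f) (γ : A → ι ⊕ κ × Bool) {e : κ → ℤ}
    (he : ∀ j, ∑ a, wtZ (γ a) j = (finrank K (U j) : ℤ) * e j)
    (x : ∀ i, Module.End K (W i)) (z : ∀ j, Module.End K (U j))
    (hx : ∀ i v w, ω i (x i v) w = - ω i v (x i w)) (v : A → MSp K W U) :
    ∑ a, cmp f γ (Function.update v a (Yx x z (v a)))
      = (∑ j, (e j : K) * LinearMap.trace K (U j) (z j)) * cmp f γ v := by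
  have hd : ∀ j, (finrank K (U j) : K) ≠ 0 := fun j => by
    exact_mod_cast (hU j).ne'
  obtain ⟨t, ht⟩ : ∃ t : κ → K, t = fun j => LinearMap.trace K (U j) (z j) / finrank K (U j) := ⟨_, rfl⟩
  obtain ⟨z₀, hz₀⟩ : ∃ z₀ : ∀ j, Module.End K (U j), z₀ = fun j => z j - t j • 1 := ⟨_, rfl⟩
  have h1 := cmp_inv0 hf γ x z₀ hx (by
    intro j
    rw [hz₀]
    show LinearMap.trace K (U j) (z j - t j • 1) = 0
    rw [map_sub, map_smul, LinearMap.trace_one, ht, smul_eq_mul, div_mul_cancel₀ _ (hd j), sub_self]) v
  have h2 := cmp_scal f γ t v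
  have h3 : ∀ w : MSp K W U, Yx x z w = Yx x z₀ w
      + Yx (fun _ => 0) (fun j => t j • (1 : Module.End K (U j))) w := by
    intro w
    refine msp_ext ?_ ?_ ?_
    · intro i
      show _ = _ + (0 : W i)
      rw [add_zero]; rfl
    · intro j
      show z j (w.2 j).1 = z₀ j (w.2 j).1 + t j • (w.2 j).1
      rw [hz₀]
      show z j (w.2 j).1 = (z j (w.2 j).1 - t j • (w.2 j).1) + t j • (w.2 j).1
      rw [sub_add_cancel]
    · intro j
      refine LinearMap.ext fun u => ?_
      show -(w.2 j).2 (z j u) = -(w.2 j).2 (z₀ j u) + -(w.2 j).2 (t j • u)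
      rw [hz₀]
      show -(w.2 j).2 (z j u) = -(w.2 j).2 (z j u - t j • u) + -(w.2 j).2 (t j • u)
      rw [map_sub]
      ring
  have h4 : ∀ a, cmp f γ (Function.update v a (Yx x z (v a)))
      = cmp f γ (Function.update v a (Yx x z₀ (v a)))
        + cmp f γ (Function.update v a
          (Yx (fun _ => 0) (fun j => t j • (1 : Module.End K (U j))) (v a))) := by
    intro a
    rw [h3, MultilinearMap.map_update_add]
  simp only [h4]
  rw [Finset.sum_add_distrib, h1, h2, zero_add]
  congr 1
  refine Finset.sum_congr rfl fun j _ => ?_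
  rw [he j, ht]
  push_cast
  have := hd j
  field_simp

end Pool.Agent.T4
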