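import Pool.Agent.Lib_helper54.T4.W2

/-! Type IV: the first fundamental theorem for products of special linear Lie algebras: combinatorics
of pairings and choice of the blocks. -/

set_option autoImplicit false
set_option linter.unusedSectionVars false
set_option linter.unusedSimpArgs false

namespace Pool.Agent.T4

open Module Finset Equiv Pool.Agent.OT Pool.Agent.MFT

/-- The pairs inside A and the partners of the elements of Q. -/
theorem comb {k : ℕ} {A Q : Type*} [Fintype A] [Fintype Q]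
    (ε : Fin k ⊕ Fin k ≃ A ⊕ Q)
    (hQ : ∀ t q q', ε (Sum.inl t) = Sum.inr q → ε (Sum.inr t) = Sum.inr q' → False) :
    ∃ (k₀ : ℕ) (τ : Fin k₀ → Fin k) (e : (Fin k₀ ⊕ Fin k₀) ⊕ Q ≃ A) (τ' : Q → Fin k) (bb : Q → Bool),
      (∀ t, ε (Sum.inl (τ t)) = Sum.inl (e (Sum.inl (Sum.inl t))) ∧
        ε (Sum.inr (τ t)) = Sum.inl (e (Sum.inl (Sum.inr t)))) ∧
      (∀ q, (bb q = false → ε (Sum.inl (τ' q)) = Sum.inl (e (Sum.inr q)) ∧
          ε (Sum.inr (τ' q)) = Sum.inr q) ∧
        (bb q = true → ε (Sum.inl (τ' q)) = Sum.inr q ∧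
          ε (Sum.inr (τ' q)) = Sum.inl (e (Sum.inr q)))) ∧
      Function.Bijective (Sum.elim τ τ' : Fin k₀ ⊕ Q → Fin k) := by
  classical
  have hq : ∀ q : Q, ∃ (t : Fin k) (b : Bool) (a : A),
      (b = false → ε (Sum.inl t) = Sum.inl a ∧ ε (Sum.inr t) = Sum.inr q) ∧
      (b = true → ε (Sum.inl t) = Sum.inr q ∧ ε (Sum.inr t) = Sum.inl a) := by
    intro q
    rcases hx : ε.symm (Sum.inr q) with t | t
    · have h1 : ε (Sum.inl t) = Sum.inr q := by rw [← hx, ε.apply_symm_apply]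
      rcases hy : ε (Sum.inr t) with a | q'
      · exact ⟨t, true, a, fun h => by simp at h, fun _ => ⟨h1, hy⟩⟩
      · exact absurd (hQ t q q' h1 hy) id
    · have h1 : ε (Sum.inr t) = Sum.inr q := by rw [← hx, ε.apply_symm_apply]
      rcases hy : ε (Sum.inl t) with a | q'
      · exact ⟨t, false, a, fun _ => ⟨hy, h1⟩, fun h => by simp at h⟩
      · exact absurd (hQ t q' q hy h1) id
  choose τ' bb aq hq using hq
  have hT : ∀ t : {t : Fin k // ∃ a a', ε (Sum.inl t) = Sum.inl a ∧ ε (Sum.inr t) = Sum.inl a'},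
      ∃ p : A × A, ε (Sum.inl t.1) = Sum.inl p.1 ∧ ε (Sum.inr t.1) = Sum.inl p.2 := by
    rintro ⟨t, a, a', h⟩
    exact ⟨(a, a'), h⟩
  choose pr hpr using hT
  obtain ⟨eT⟩ : Nonempty (Fin (Fintype.card {t : Fin k // ∃ a a', ε (Sum.inl t) = Sum.inl a ∧
      ε (Sum.inr t) = Sum.inl a'}) ≃ {t : Fin k // ∃ a a', ε (Sum.inl t) = Sum.inl a ∧
      ε (Sum.inr t) = Sum.inl a'}) := ⟨(Fintype.equivFin _).symm⟩
  obtain ⟨k₀, hk₀⟩ : ∃ k₀, k₀ = Fintype.card {t : Fin k // ∃ a a', ε (Sum.inl t) = Sum.inl a ∧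
      ε (Sum.inr t) = Sum.inl a'} := ⟨_, rfl⟩
  rw [← hk₀] at eT
  obtain ⟨E, hE⟩ : ∃ E : (Fin k₀ ⊕ Fin k₀) ⊕ Q → A,
    E = Sum.elim (Sum.elim (fun t => (pr (eT t)).1) (fun t => (pr (eT t)).2)) aq := ⟨_, rfl⟩
  have E1 : ∀ t, ε (Sum.inl (eT t).1) = Sum.inl (E (Sum.inl (Sum.inl t))) := by
    intro t; rw [hE]; exact (hpr (eT t)).1
  have E2 : ∀ t, ε (Sum.inr (eT t).1) = Sum.inl (E (Sum.inl (Sum.inr t))) := by
    intro t; rw [hE]; exact (hpr (eT t)).2
  have E3 : ∀ q, bb q = false → ε (Sum.inl (τ' q)) = Sum.inl (E (Sum.inr q)) ∧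
      ε (Sum.inr (τ' q)) = Sum.inr q := by
    intro q h; rw [hE]; exact (hq q).1 h
  have E4 : ∀ q, bb q = true → ε (Sum.inl (τ' q)) = Sum.inr q ∧
      ε (Sum.inr (τ' q)) = Sum.inl (E (Sum.inr q)) := by
    intro q h; rw [hE]; exact (hq q).2 h
  have hbb : ∀ q, bb q = false ∨ bb q = true := fun q => by cases bb q <;> simp
  -- T₀ and τ' are disjoint
  have hdis : ∀ t q, (eT t).1 ≠ τ' q := by
    intro t q h
    rcases hbb q with hb | hb
    · have h1 := (E3 q hb).2
      rw [← h, E2] at h1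
      exact absurd h1 (by simp)
    · have h1 := (E4 q hb).1
      rw [← h, E1] at h1
      exact absurd h1 (by simp)
  have hτ' : Function.Injective τ' := by
    intro q q' h
    rcases hbb q with hb | hb <;> rcases hbb q' with hb' | hb'
    · have h1 := (E3 q hb).2
      rw [h, (E3 q' hb').2] at h1
      exact (Sum.inr.inj h1).symm
    · have h1 := (E3 q hb).1
      rw [h, (E4 q' hb').1] at h1
      exact absurd h1 (by simp)
    · have h1 := (E4 q hb).1
      rw [h, (E3 q' hb').1] at h1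
      exact absurd h1 (by simp)
    · have h1 := (E4 q hb).1
      rw [h, (E4 q' hb').1] at h1
      exact (Sum.inr.inj h1).symm
  -- slots
  have hslot : ∀ x, ∃ y, ε y = Sum.inl (E x) ∧
      ((∃ t, x = Sum.inl (Sum.inl t) ∧ y = Sum.inl (eT t).1) ∨
       (∃ t, x = Sum.inl (Sum.inr t) ∧ y = Sum.inr (eT t).1) ∨
       (∃ q, x = Sum.inr q ∧ (y = Sum.inl (τ' q) ∨ y = Sum.inr (τ' q)))) := by
    rintro ((t | t) | q)
    · exact ⟨_, E1 t, Or.inl ⟨t, rfl, rfl⟩⟩
    · exact ⟨_, E2 t, Or.inr (Or.inl ⟨t, rfl, rfl⟩)⟩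
    · rcases hbb q with hb | hb
      · exact ⟨_, (E3 q hb).1, Or.inr (Or.inr ⟨q, rfl, Or.inl rfl⟩)⟩
      · exact ⟨_, (E4 q hb).2, Or.inr (Or.inr ⟨q, rfl, Or.inr rfl⟩)⟩
  have hinj : Function.Injective E := by
    intro x x' h
    obtain ⟨y, hy, hc⟩ := hslot x
    obtain ⟨y', hy', hc'⟩ := hslot x'
    have hyy : y = y' := ε.injective (by rw [hy, hy', h])
    subst hyy
    rcases hc with ⟨t, rfl, h1⟩ | ⟨t, rfl, h1⟩ | ⟨q, rfl, h1⟩ <;>
      rcases hc' with ⟨t', rfl, h2⟩ | ⟨t', rfl, h2⟩ | ⟨q', rfl, h2⟩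
    · have := Sum.inl.inj (h1.symm.trans h2)
      rw [eT.injective (Subtype.ext this)]
    · exact absurd (h1.symm.trans h2) (by simp)
    · rcases h2 with h2 | h2
      · exact absurd (Sum.inl.inj (h1.symm.trans h2)) (hdis _ _)
      · exact absurd (h1.symm.trans h2) (by simp)
    · exact absurd (h1.symm.trans h2) (by simp)
    · have := Sum.inr.inj (h1.symm.trans h2)
      rw [eT.injective (Subtype.ext this)]
    · rcases h2 with h2 | h2
      · exact absurd (h1.symm.trans h2) (by simp)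
      · exact absurd (Sum.inr.inj (h1.symm.trans h2)) (hdis _ _)
    · rcases h1 with h1 | h1
      · exact absurd (Sum.inl.inj (h2.symm.trans h1)) (hdis _ _)
      · exact absurd (h1.symm.trans h2) (by simp)
    · rcases h1 with h1 | h1
      · exact absurd (h1.symm.trans h2) (by simp)
      · exact absurd (Sum.inr.inj (h2.symm.trans h1)) (hdis _ _)
    · rcases h1 with h1 | h1 <;> rcases h2 with h2 | h2
      · rw [hτ' (Sum.inl.inj (h1.symm.trans h2))]
      · exact absurd (h1.symm.trans h2) (by simp)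
      · exact absurd (h1.symm.trans h2) (by simp)
      · rw [hτ' (Sum.inr.inj (h1.symm.trans h2))]
  have hsurj : Function.Surjective E := by
    intro a
    rcases hx : ε.symm (Sum.inl a) with t | t
    · have h1 : ε (Sum.inl t) = Sum.inl a := by rw [← hx, ε.apply_symm_apply]
      rcases hy : ε (Sum.inr t) with a' | q
      · refine ⟨Sum.inl (Sum.inl (eT.symm ⟨t, a, a', h1, hy⟩)), ?_⟩
        have h2 := E1 (eT.symm ⟨t, a, a', h1, hy⟩)
        rw [eT.apply_symm_apply] at h2
        exact (Sum.inl.inj (h1.symm.trans h2)).symm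
      · refine ⟨Sum.inr q, ?_⟩
        rcases hbb q with hb | hb
        · have h2 : τ' q = t := Sum.inr.inj (ε.injective ((E3 q hb).2.trans hy.symm))
          have h3 := (E3 q hb).1
          rw [h2, h1] at h3
          exact (Sum.inl.inj h3).symm
        · exact absurd (ε.injective ((E4 q hb).1.trans hy.symm)) (by simp)
    · have h1 : ε (Sum.inr t) = Sum.inl a := by rw [← hx, ε.apply_symm_apply]
      rcases hy : ε (Sum.inl t) with a' | q
      · refine ⟨Sum.inl (Sum.inr (eT.symm ⟨t, a', a, hy, h1⟩)), ?_⟩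
        have h2 := E2 (eT.symm ⟨t, a', a, hy, h1⟩)
        rw [eT.apply_symm_apply] at h2
        exact (Sum.inl.inj (h1.symm.trans h2)).symm
      · refine ⟨Sum.inr q, ?_⟩
        rcases hbb q with hb | hb
        · exact absurd (ε.injective ((E3 q hb).2.trans hy.symm)) (by simp)
        · have h2 : τ' q = t := Sum.inl.inj (ε.injective ((E4 q hb).1.trans hy.symm))
          have h3 := (E4 q hb).2
          rw [h2, h1] at h3
          exact (Sum.inl.inj h3).symm
  refine ⟨k₀, fun t => (eT t).1, Equiv.ofBijective E ⟨hinj, hsurj⟩, τ', bb, fun t => ⟨E1 t, E2 t⟩,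
    fun q => ⟨E3 q, E4 q⟩, ?_, ?_⟩
  · rintro (t | q) (t' | q') h
    · simp only [Sum.elim_inl] at h
      rw [eT.injective (Subtype.ext h)]
    · exact absurd h (hdis _ _)
    · exact absurd h.symm (hdis _ _)
    · simp only [Sum.elim_inr] at h
      rw [hτ' h]
  · intro t
    rcases hx : ε (Sum.inl t) with a | q
    · rcases hy : ε (Sum.inr t) with a' | q
      · refine ⟨Sum.inl (eT.symm ⟨t, a, a', hx, hy⟩), ?_⟩
        simp only [Sum.elim_inl]
        rw [eT.apply_symm_apply]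
      · refine ⟨Sum.inr q, ?_⟩
        rcases hbb q with hb | hb
        · exact Sum.inr.inj (ε.injective ((E3 q hb).2.trans hy.symm))
        · exact absurd (ε.injective ((E4 q hb).1.trans hy.symm)) (by simp)
    · refine ⟨Sum.inr q, ?_⟩
      rcases hbb q with hb | hb
      · exact absurd (ε.injective ((E3 q hb).2.trans hx.symm)) (by simp)
      · exact Sum.inl.inj (ε.injective ((E4 q hb).1.trans hx.symm))

/-- The choice of the blocks. -/
theorem blocks (K : Type*) [Field K] {κ : Type*} [Fintype κ] (e : κ → ℤ) :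
    ∃ (w : ℕ) (cs : Fin w → κ × Bool), (∀ s s', (cs s).1 = (cs s').1 → (cs s).2 = (cs s').2) ∧
      ∀ t : κ → K, ∑ s, sg K (cs s).2 * t (cs s).1 = -∑ j, (e j : K) * t j := by
  classical
  let S := Σ j, Fin (e j).natAbs
  let eS : Fin (Fintype.card S) ≃ S := (Fintype.equivFin S).symm
  refine ⟨Fintype.card S, fun s => ((eS s).1, decide (0 < e (eS s).1)), fun s s' h => ?_, fun t => ?_⟩
  · show decide (0 < e (eS s).1) = decide (0 < e (eS s').1)
    have h' : (eS s).1 = (eS s').1 := h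
    rw [h']
  · show ∑ s, sg K (decide (0 < e (eS s).1)) * t (eS s).1 = _
    rw [eS.sum_comp (fun s : S => sg K (decide (0 < e s.1)) * t s.1), Fintype.sum_sigma,
      ← Finset.sum_neg_distrib]
    refine Finset.sum_congr rfl fun j _ => ?_
    show ∑ _y : Fin (e j).natAbs, sg K (decide (0 < e j)) * t j = _
    rw [Finset.sum_const, Finset.card_univ, Fintype.card_fin, nsmul_eq_mul]
    by_cases h : 0 < e j
    · have h2 : ((e j).natAbs : ℤ) = e j := Int.natAbs_of_nonneg h.le
      have h3 : ((e j).natAbs : K) = (e j : K) := by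
        rw [← h2]; simp
      rw [h3]
      simp [h, sg]
    · have h2 : ((e j).natAbs : ℤ) = -e j := Int.ofNat_natAbs_of_nonpos (not_lt.mp h)
      have h3 : ((e j).natAbs : K) = -(e j : K) := by
        rw [← Int.cast_neg, ← h2]; simp
      rw [h3]
      simp [h, sg]

end Pool.Agent.T4
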