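import Pool.Agent.Lib_helper54.T4.W3

/-! Type IV: the first fundamental theorem for products of special linear Lie algebras: reduction to
general linear Lie algebras. -/

set_option autoImplicit false
set_option linter.unusedSectionVars false
set_option linter.unusedSimpArgs false

namespace Pool.Agent.T4

open Module Finset Equiv Pool.Agent.OT Pool.Agent.MFT

variable {K : Type*} [Field K] [CharZero K]
variable {ι κ : Type*} [Fintype ι] [Fintype κ] [DecidableEq ι] [DecidableEq κ]
variable {W : ι → Type*} [∀ i, AddCommGroup (W i)] [∀ i, Module K (W i)]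
  [∀ i, FiniteDimensional K (W i)]
variable {U : κ → Type*} [∀ j, AddCommGroup (U j)] [∀ j, Module K (U j)]
  [∀ j, FiniteDimensional K (U j)]
variable {ω : ∀ i, LinearMap.BilinForm K (W i)}
variable {A : Type*} [Fintype A] [DecidableEq A]

section upd

variable {V : Type*} {w : ℕ} {d : Fin w → ℕ}

theorem upd_inl (v : A ⊕ (Σ s : Fin w, Fin (d s)) → V) (a : A) (x : V) :
    (fun b => Function.update v (Sum.inl a) x (Sum.inl b))
      = Function.update (fun b => v (Sum.inl b)) a x := by
  funext b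
  by_cases h : b = a
  · subst h
    rw [Function.update_self, Function.update_self]
  · rw [Function.update_of_ne h, Function.update_of_ne (fun h' => h (Sum.inl.inj h'))]

theorem upd_inl' (v : A ⊕ (Σ s : Fin w, Fin (d s)) → V) (a : A) (x : V) (q : Σ s : Fin w, Fin (d s)) :
    Function.update v (Sum.inl a) x (Sum.inr q) = v (Sum.inr q) :=
  Function.update_of_ne (by simp) _ _

theorem upd_inr' (v : A ⊕ (Σ s : Fin w, Fin (d s)) → V) (a : A) (x : V) (q : Σ s : Fin w, Fin (d s)) :
    Function.update v (Sum.inr q) x (Sum.inl a) = v (Sum.inl a) :=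
  Function.update_of_ne (by simp) _ _

theorem upd_inr (v : A ⊕ (Σ s : Fin w, Fin (d s)) → V) (s : Fin w) (i : Fin (d s)) (x : V) :
    (fun b => Function.update v (Sum.inr ⟨s, i⟩) x (Sum.inr ⟨s, b⟩))
      = Function.update (fun b => v (Sum.inr ⟨s, b⟩)) i x := by
  funext b
  by_cases h : b = i
  · subst h
    rw [Function.update_self, Function.update_self]
  · rw [Function.update_of_ne h, Function.update_of_ne (by simpa using h)]

theorem upd_inr_ne (v : A ⊕ (Σ s : Fin w, Fin (d s)) → V) {s s' : Fin w} (h : s' ≠ s)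
    (i : Fin (d s)) (x : V) :
    (fun b => Function.update v (Sum.inr ⟨s, i⟩) x (Sum.inr ⟨s', b⟩))
      = fun b => v (Sum.inr ⟨s', b⟩) := by
  funext b
  rw [Function.update_of_ne]
  intro h'
  exact h (congrArg Sigma.fst (Sum.inr.inj h'))

end upd

/-- The product of the volume forms. -/
noncomputable def vp {w : ℕ} (cs : Fin w → κ × Bool) (S : Finset (Fin w))
    (v : A ⊕ (Σ s : Fin w, Fin (finrank K (U (cs s).1))) → MSp K W U) : K :=
  ∏ s ∈ S, vol K W U (cs s).1 (cs s).2 (fun i => v (Sum.inr ⟨s, i⟩))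

theorem vp_inl {w : ℕ} (cs : Fin w → κ × Bool) (S : Finset (Fin w))
    (v : A ⊕ (Σ s : Fin w, Fin (finrank K (U (cs s).1))) → MSp K W U) (a : A) (x : MSp K W U) :
    vp cs S (Function.update v (Sum.inl a) x) = vp cs S v := by
  unfold vp
  simp only [upd_inl']

theorem vp_inr {w : ℕ} (cs : Fin w → κ × Bool)
    (v : A ⊕ (Σ s : Fin w, Fin (finrank K (U (cs s).1))) → MSp K W U) (s : Fin w)
    (i : Fin (finrank K (U (cs s).1))) (x : MSp K W U) :
    vp cs Finset.univ (Function.update v (Sum.inr ⟨s, i⟩) x)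
      = vol K W U (cs s).1 (cs s).2 (Function.update (fun b => v (Sum.inr ⟨s, b⟩)) i x)
        * vp cs (Finset.univ.erase s) v := by
  unfold vp
  rw [← Finset.mul_prod_erase _ _ (Finset.mem_univ s)]
  congr 1
  · exact congrArg _ (upd_inr (d := fun s => finrank K (U (cs s).1)) v s i x)
  · refine Finset.prod_congr rfl fun s' hs' => ?_
    exact congrArg _ (upd_inr_ne (d := fun s => finrank K (U (cs s).1)) v (Finset.ne_of_mem_erase hs') i x)

theorem vp_erase {w : ℕ} (cs : Fin w → κ × Bool)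
    (v : A ⊕ (Σ s : Fin w, Fin (finrank K (U (cs s).1))) → MSp K W U) (s : Fin w) :
    vol K W U (cs s).1 (cs s).2 (fun b => v (Sum.inr ⟨s, b⟩)) * vp cs (Finset.univ.erase s) v
      = vp cs Finset.univ v := by
  unfold vp
  rw [← Finset.mul_prod_erase _ _ (Finset.mem_univ s)]

/-- The form with the blocks. -/
noncomputable def Fb {w : ℕ} (cs : Fin w → κ × Bool) (h : MultilinearMap K (fun _ : A => MSp K W U) K)
    (v : A ⊕ (Σ s : Fin w, Fin (finrank K (U (cs s).1))) → MSp K W U) : K :=
  h (fun a => v (Sum.inl a)) * vp cs Finset.univ v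

theorem Fb_pml {w : ℕ} (cs : Fin w → κ × Bool) (h : MultilinearMap K (fun _ : A => MSp K W U) K) :
    PML K Finset.univ (Fb cs h) := by
  refine ⟨?_, ?_, fun a ha => absurd (Finset.mem_univ a) ha⟩
  · rintro (a | ⟨s, i⟩) _ v x y
    · unfold Fb
      rw [upd_inl, upd_inl, upd_inl, vp_inl, vp_inl, vp_inl, h.map_update_add]
      ring
    · unfold Fb
      simp only [upd_inr', vp_inr, AlternatingMap.map_update_add]
      ring
  · rintro (a | ⟨s, i⟩) _ v c x
    · unfold Fb
      rw [upd_inl, upd_inl, vp_inl, vp_inl, h.map_update_smul, smul_eq_mul]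
      ring
    · unfold Fb
      simp only [upd_inr', vp_inr, AlternatingMap.map_update_smul, smul_eq_mul]
      ring

theorem Fb_inv {w : ℕ} (cs : Fin w → κ × Bool) (h : MultilinearMap K (fun _ : A => MSp K W U) K)
    (hch : ∀ (x : ∀ i, Module.End K (W i)) (z : ∀ j, Module.End K (U j)),
      (∀ i v w, ω i (x i v) w = - ω i v (x i w)) → ∀ v : A → MSp K W U,
      ∑ a, h (Function.update v a (Yx x z (v a)))
        = -(∑ s, sg K (cs s).2 * LinearMap.trace K (U (cs s).1) (z (cs s).1)) * h v) :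
    InvM (tot (U := U) ω) (prj K W U) Finset.univ (Fb cs h) := by
  intro y hy hyc v
  obtain ⟨x, z, hx, rfl⟩ := exists_xz y hy hyc
  rw [Fintype.sum_sum_type, Fintype.sum_sigma]
  have h1 : ∀ a, Fb cs h (Function.update v (Sum.inl a) (Yx x z (v (Sum.inl a))))
      = h (Function.update (fun b => v (Sum.inl b)) a (Yx x z (v (Sum.inl a)))) * vp cs Finset.univ v := by
    intro a
    unfold Fb
    rw [upd_inl, vp_inl]
  have h2 : ∀ s i, Fb cs h (Function.update v (Sum.inr ⟨s, i⟩) (Yx x z (v (Sum.inr ⟨s, i⟩))))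
      = h (fun a => v (Sum.inl a)) * (vol K W U (cs s).1 (cs s).2
        (Function.update (fun b => v (Sum.inr ⟨s, b⟩)) i (Yx x z (v (Sum.inr ⟨s, i⟩))))
        * vp cs (Finset.univ.erase s) v) := by
    intro s i
    unfold Fb
    rw [vp_inr]
    simp only [upd_inr']
  have h3 : ∀ s, ∑ i, Fb cs h (Function.update v (Sum.inr ⟨s, i⟩) (Yx x z (v (Sum.inr ⟨s, i⟩))))
      = (sg K (cs s).2 * LinearMap.trace K (U (cs s).1) (z (cs s).1))
        * (h (fun a => v (Sum.inl a)) * vp cs Finset.univ v) := by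
    intro s
    simp only [h2]
    rw [← Finset.mul_sum, ← Finset.sum_mul]
    have := vol_act (W := W) x z (cs s).1 (cs s).2 (fun b => v (Sum.inr ⟨s, b⟩))
    rw [this, ← vp_erase cs v s]
    ring
  simp only [h1]
  rw [← Finset.sum_mul, hch x z hx (fun b => v (Sum.inl b))]
  simp only [h3]
  rw [← Finset.sum_mul]
  ring

/-- Antisymmetrisation in the blocks and evaluation at the bases. -/
noncomputable def Psi {w : ℕ} (cs : Fin w → κ × Bool) :
    ((A ⊕ (Σ s : Fin w, Fin (finrank K (U (cs s).1))) → MSp K W U) → K) →ₗ[K]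
      ((A → MSp K W U) → K) where
  toFun G v := ∑ σ : ∀ s, Perm (Fin (finrank K (U (cs s).1))),
    (∏ s, ((Perm.sign (σ s) : ℤ) : K)) *
      G (Sum.elim v (fun q => EV K W U (cs q.1).1 (cs q.1).2 (σ q.1 q.2)))
  map_add' G H := by
    funext v
    simp only [Pi.add_apply, mul_add, Finset.sum_add_distrib]
  map_smul' c G := by
    funext v
    simp only [Pi.smul_apply, smul_eq_mul, RingHom.id_apply, Finset.mul_sum]
    refine Finset.sum_congr rfl fun σ _ => ?_
    ring

theorem Psi_Fb {w : ℕ} (cs : Fin w → κ × Bool) (h : MultilinearMap K (fun _ : A => MSp K W U) K) :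
    ∃ N : K, N ≠ 0 ∧ Psi cs (Fb cs h) = N • (fun v => h v) := by
  refine ⟨((Finset.univ : Finset (∀ s, Perm (Fin (finrank K (U (cs s).1))))).card : K), ?_, ?_⟩
  · rw [Nat.cast_ne_zero]
    exact Finset.card_ne_zero.mpr ⟨fun _ => 1, Finset.mem_univ _⟩
  · funext v
    show ∑ σ : ∀ s, Perm (Fin (finrank K (U (cs s).1))), (∏ s, ((Perm.sign (σ s) : ℤ) : K)) *
      Fb cs h (Sum.elim v (fun q => EV K W U (cs q.1).1 (cs q.1).2 (σ q.1 q.2))) = _
    have h1 : ∀ σ : ∀ s, Perm (Fin (finrank K (U (cs s).1))), (∏ s, ((Perm.sign (σ s) : ℤ) : K)) *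
        Fb cs h (Sum.elim v (fun q => EV K W U (cs q.1).1 (cs q.1).2 (σ q.1 q.2))) = h v := by
      intro σ
      unfold Fb vp
      simp only [Sum.elim_inl, Sum.elim_inr, vol_EV]
      rw [mul_left_comm, ← Finset.prod_mul_distrib]
      have h2 : ∀ s, ((Perm.sign (σ s) : ℤ) : K) * ((Perm.sign (σ s) : ℤ) : K) = 1 := by
        intro s
        rw [← Int.cast_mul, ← Units.val_mul, Int.units_mul_self, Units.val_one, Int.cast_one]
      simp only [h2, Finset.prod_const_one, mul_one]
    simp only [h1]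
    rw [Finset.sum_const, nsmul_eq_mul]
    rfl

end Pool.Agent.T4
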